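import Pool.Agent.Run7.h952.DI.Ctr

set_option autoImplicit false

/-!
# Rationals of smallest denominator in an interval and the centres
-/

namespace Run7.h952.DI

/-- The rational of the smallest denominator in an interval. -/
theorem min_den {u v : ℝ} (huv : u < v) : ∃ p q : ℤ, 0 < q ∧ u * q ≤ p ∧ (p:ℝ) ≤ v * q ∧
    ∀ p' q' : ℤ, 0 < q' → q' < q → ¬ (u * q' ≤ p' ∧ (p':ℝ) ≤ v * q') := by
  classical
  have hex : ∃ n : ℕ, 0 < n ∧ ∃ p : ℤ, u * n ≤ p ∧ (p:ℝ) ≤ v * n := by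
    obtain ⟨x, hx1, hx2⟩ := exists_rat_btwn huv
    refine ⟨x.den, x.den_pos, x.num, ?_, ?_⟩
    · have h1 : (x:ℝ) = x.num / x.den := Rat.cast_def x
      have h2 : (0:ℝ) < x.den := by exact_mod_cast x.den_pos
      rw [h1, lt_div_iff₀ h2] at hx1
      exact hx1.le
    · have h1 : (x:ℝ) = x.num / x.den := Rat.cast_def x
      have h2 : (0:ℝ) < x.den := by exact_mod_cast x.den_pos
      rw [h1, div_lt_iff₀ h2] at hx2
      exact hx2.le
  obtain ⟨h0, p, hp1, hp2⟩ := Nat.find_spec hex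
  refine ⟨p, (Nat.find hex : ℕ), by exact_mod_cast h0, by exact_mod_cast hp1,
    by exact_mod_cast hp2, ?_⟩
  intro p' q' hq' hlt hcon
  have h1 : q'.toNat < Nat.find hex := by omega
  have h2 := Nat.find_min hex h1
  apply h2
  have h3 : ((q'.toNat : ℕ) : ℝ) = q' := by
    have : ((q'.toNat : ℕ) : ℤ) = q' := Int.toNat_of_nonneg hq'.le
    exact_mod_cast this
  refine ⟨by omega, p', ?_, ?_⟩
  · rw [h3]; exact hcon.1
  · rw [h3]; exact hcon.2

/-- Farey neighbour on the right. -/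
theorem nbr {u v : ℝ} {p q : ℤ} (hq : 0 < q) (h1 : u * q ≤ p) (h2 : (p:ℝ) ≤ v * q)
    (hmin : ∀ p' q' : ℤ, 0 < q' → q' < q → ¬ (u * q' ≤ p' ∧ (p':ℝ) ≤ v * q')) :
    ∃ p' q' : ℤ, p' * q - p * q' = 1 ∧ 0 ≤ q' ∧ q' < q := by
  have hg : Int.gcd p q = 1 := by
    by_contra hne
    have hg0 : 0 < Int.gcd p q := Int.gcd_pos_of_ne_zero_right p hq.ne'
    obtain ⟨p1, hp1⟩ := Int.gcd_dvd_left (a := p) (b := q)
    obtain ⟨q1, hq1⟩ := Int.gcd_dvd_right (a := p) (b := q)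
    set g : ℤ := (Int.gcd p q : ℤ) with hgd
    have hg2 : 2 ≤ g := by omega
    have hq1pos : 0 < q1 := by
      by_contra hcon
      have : g * q1 ≤ 0 := mul_nonpos_of_nonneg_of_nonpos (by omega) (by omega)
      omega
    have hlt : q1 < q := by nlinarith
    apply hmin p1 q1 hq1pos hlt
    have hgr : (0:ℝ) < g := by exact_mod_cast (by omega : 0 < g)
    have e1 : (p:ℝ) = g * p1 := by exact_mod_cast hp1
    have e2 : (q:ℝ) = g * q1 := by exact_mod_cast hq1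
    rw [e1, e2] at h1 h2
    constructor
    · have : g * (u * q1) ≤ g * (p1:ℝ) := by linarith
      exact le_of_mul_le_mul_left this hgr
    · have : g * (p1:ℝ) ≤ g * (v * q1) := by linarith
      exact le_of_mul_le_mul_left this hgr
  have hbz := Int.gcd_eq_gcd_ab p q
  rw [hg] at hbz
  set α := Int.gcdA p q
  set β := Int.gcdB p q
  have hb : p * α + q * β = 1 := by push_cast at hbz; linarith
  refine ⟨β - p * (-α / q), -α - q * (-α / q), ?_, ?_, ?_⟩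
  · linear_combination hb
  · have := Int.emod_nonneg (-α) hq.ne'
    have h3 := Int.emod_add_mul_ediv (-α) q
    omega
  · have := Int.emod_lt_of_pos (-α) hq
    have h3 := Int.emod_add_mul_ediv (-α) q
    omega

/-- A neighbour of small denominator. -/
theorem small_nbr {x l : ℝ} (hl : 0 < l) {p q : ℤ} (hq : 2 ≤ q) (h1 : x * q ≤ p)
    (h2 : (p:ℝ) ≤ (x + l / 2) * q)
    (hmin : ∀ p' q' : ℤ, 0 < q' → q' < q → ¬ (x * q' ≤ p' ∧ (p':ℝ) ≤ (x + l / 2) * q')) :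
    ∃ p1 q1 σ : ℤ, p1 * q - p * q1 = σ ∧ σ ^ 2 = 1 ∧ 0 < q1 ∧ q1 < q ∧ (q1:ℝ) * q * l < 4 := by
  obtain ⟨p', q', hdet, hq'0, hq'q⟩ := nbr (by omega) h1 h2 hmin
  have hq' : 0 < q' := by
    rcases lt_or_eq_of_le hq'0 with h | h
    · exact h
    · exfalso
      rw [← h] at hdet
      have h3 : p' * q = 1 := by linarith
      have h4 : q ∣ 1 := ⟨p', by linarith⟩
      have := Int.le_of_dvd (by norm_num) h4
      omega
  have hqr : (0:ℝ) < q := by exact_mod_cast (by omega : 0 < q)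
  have hq'r : (0:ℝ) < q' := by exact_mod_cast hq'
  have hq''r : (0:ℝ) < (q:ℝ) - q' := by
    have : (q':ℝ) < q := by exact_mod_cast hq'q
    linarith
  have hdr : (p':ℝ) * q - p * q' = 1 := by exact_mod_cast hdet
  have h3 : (x + l / 2) * q' < p' := by
    by_contra hcon
    push Not at hcon
    apply hmin p' q' hq' hq'q
    refine ⟨?_, hcon⟩
    have h4 : x * q' * q ≤ p' * q := by
      have h5 : x * q * q' ≤ p * q' := mul_le_mul_of_nonneg_right h1 hq'r.le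
      nlinarith
    exact le_of_mul_le_mul_right h4 hqr
  have h4 : (p:ℝ) - p' < x * ((q:ℝ) - q') := by
    by_contra hcon
    push Not at hcon
    apply hmin (p - p') (q - q') (by omega) (by omega)
    push_cast
    refine ⟨hcon, ?_⟩
    have h6 : (p:ℝ) * (q - q') ≤ (x + l / 2) * q * (q - q') :=
      mul_le_mul_of_nonneg_right h2 hq''r.le
    have h7 : ((p:ℝ) - p') * q ≤ (x + l / 2) * (q - q') * q := by nlinarith
    exact le_of_mul_le_mul_right h7 hqr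
  -- p'/q' - p''/q'' > l/2
  have h5 : (q':ℝ) * (q - q') * (l / 2) < 1 := by
    have h6 : (x + l / 2) * q' * (q - q') < p' * (q - q') := mul_lt_mul_of_pos_right h3 hq''r
    have h7 : ((p:ℝ) - p') * q' < x * (q - q') * q' := mul_lt_mul_of_pos_right h4 hq'r
    nlinarith
  rcases le_total (2 * q') q with h6 | h6
  · refine ⟨p', q', 1, by linarith, by norm_num, hq', hq'q, ?_⟩
    have h7 : (2:ℝ) * q' ≤ q := by exact_mod_cast h6
    have h8 : (q':ℝ) * q ≤ 2 * (q' * (q - q')) := by nlinarith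
    have h9 := mul_le_mul_of_nonneg_right h8 hl.le
    nlinarith
  · refine ⟨p - p', q - q', -1, ?_, by norm_num, by omega, by omega, ?_⟩
    · linear_combination -hdet
    · have h7 : (q:ℝ) ≤ 2 * q' := by exact_mod_cast h6
      push_cast
      have h8 : ((q:ℝ) - q') * q ≤ 2 * (q' * (q - q')) := by nlinarith
      have h9 := mul_le_mul_of_nonneg_right h8 hl.le
      nlinarith

/-- Value of the form at an integral point. -/
lemma Val.at {a b : ℤ} (h : Val a b) {p q : ℤ} (hq : 0 < q) :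
    ∃ n : ℤ, 0 < n ∧ 4 * a * n = (2 * a * p - b * q) ^ 2 + 3 * q ^ 2 := by
  obtain ⟨ha, c, hc⟩ := h
  refine ⟨a * p ^ 2 - b * p * q + c * q ^ 2, ?_, ?_⟩
  · have h1 : 4 * a * (a * p ^ 2 - b * p * q + c * q ^ 2) = (2 * a * p - b * q) ^ 2 + 3 * q ^ 2 := by
      linear_combination (-q ^ 2) * hc
    have h2 : 0 < 4 * a * (a * p ^ 2 - b * p * q + c * q ^ 2) := by
      rw [h1]; positivity
    have h3 : 0 < 4 * a := by omega
    exact (mul_pos_iff_of_pos_left h3).1 h2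
  · linear_combination (-q ^ 2) * hc

/-- In the deep case the centres are far from the rational of smallest denominator. -/
theorem deep {ρ l : ℝ} (hρ : 0 < ρ) (hρ1 : ρ ≤ 1) (hl : 0 < l) {p q p1 q1 σ : ℤ} (hq : 0 < q)
    (hdet : p1 * q - p * q1 = σ) (hσ : σ ^ 2 = 1) (hq1 : 0 < q1) (hq1l : (q1:ℝ) * q * l < 4)
    (hbig : 100 ≤ (q:ℝ) ^ 2 * l * ρ) {a b : ℤ} (h : Val a b) (ha : ρ < a * l) :
    (1:ℝ) / 2 ≤ |2 * (a:ℝ) * ((p:ℝ) / q) - b| := by
  by_contra hcon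
  push Not at hcon
  have ha0 : (0:ℝ) < a := by exact_mod_cast h.1
  have hqr : (0:ℝ) < q := by exact_mod_cast hq
  have hq1r : (0:ℝ) < q1 := by exact_mod_cast hq1
  obtain ⟨n, hn, hn'⟩ := h.at (p := p) hq
  obtain ⟨n1, hn1, hn1'⟩ := h.at (p := p1) hq1
  set β : ℝ := 2 * a * (p / q) - b with hβ
  have e1 : 2 * (a:ℝ) * p - b * q = q * β := by rw [hβ]; field_simp
  have e2 : (2 * (a:ℝ) * p1 - b * q1) * q = q1 * q * β + 2 * a * σ := by
    have : (p1:ℝ) * q - p * q1 = σ := by exact_mod_cast hdet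
    linear_combination 2 * a * this + q1 * e1
  have hnr : 4 * (a:ℝ) * n = (2 * a * p - b * q) ^ 2 + 3 * q ^ 2 := by exact_mod_cast hn'
  have hn1r : 4 * (a:ℝ) * n1 = (2 * a * p1 - b * q1) ^ 2 + 3 * q1 ^ 2 := by exact_mod_cast hn1'
  have hn1' : (1:ℝ) ≤ n := by exact_mod_cast hn
  have hn11 : (1:ℝ) ≤ n1 := by exact_mod_cast hn1
  have hβ2 : β ^ 2 < 1 / 4 := by
    have := pow_lt_pow_left₀ hcon (abs_nonneg _) two_ne_zero
    rw [sq_abs] at this
    linarith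
  rw [e1] at hnr
  have h4a : 4 * (a:ℝ) ≤ 13 / 4 * q ^ 2 := by
    have h5 : 4 * (a:ℝ) ≤ 4 * a * n := by nlinarith
    have h6 : (q * β) ^ 2 ≤ q ^ 2 * (1 / 4) := by
      rw [mul_pow]
      exact mul_le_mul_of_nonneg_left hβ2.le (by positivity)
    linarith
  set E : ℝ := 2 * (a:ℝ) * p1 - b * q1 with hE
  have hEabs : |E| * q ≤ q1 * q / 2 + 2 * a := by
    have h5 : |E * q| ≤ |q1 * q * β| + |2 * (a:ℝ) * σ| := by
      rw [e2]; exact abs_add_le _ _
    have hσa : |(σ:ℝ)| = 1 := by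
      have : ((σ:ℝ)) ^ 2 = 1 := by exact_mod_cast hσ
      have h7 : |(σ:ℝ)| ^ 2 = 1 := by rw [sq_abs]; exact this
      have h8 := abs_nonneg (σ:ℝ)
      nlinarith
    rw [abs_mul, abs_of_pos hqr] at h5
    rw [abs_mul (q1 * q : ℝ) β, abs_of_pos (by positivity : (0:ℝ) < q1 * q),
      abs_mul (2 * (a:ℝ)) (σ:ℝ), hσa, abs_of_pos (by positivity : (0:ℝ) < 2 * a)] at h5
    have h6 : (q1 * q : ℝ) * |β| ≤ (q1 * q : ℝ) * (1 / 2) :=
      mul_le_mul_of_nonneg_left hcon.le (by positivity)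
    linarith
  have hE2 : (E * q) ^ 2 ≤ (q1 * q / 2 + 2 * a) ^ 2 := by
    have h5 : |E * q| ≤ q1 * q / 2 + 2 * a := by rw [abs_mul, abs_of_pos hqr]; exact hEabs
    calc (E * q) ^ 2 = |E * q| ^ 2 := (sq_abs _).symm
      _ ≤ _ := pow_le_pow_left₀ (abs_nonneg _) h5 2
  -- multiply by q^2
  have h5 : 4 * (a:ℝ) * q ^ 2 ≤ (q1 * q / 2 + 2 * a) ^ 2 + 3 * q1 ^ 2 * q ^ 2 := by
    have h6 : 4 * (a:ℝ) * q ^ 2 ≤ 4 * a * n1 * q ^ 2 := by
      have : 4 * (a:ℝ) ≤ 4 * a * n1 := by nlinarith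
      exact mul_le_mul_of_nonneg_right this (by positivity)
    have h7 : 4 * (a:ℝ) * n1 * q ^ 2 = (E * q) ^ 2 + 3 * q1 ^ 2 * q ^ 2 := by
      rw [hn1r]; ring
    linarith
  -- q1 q < q^2 / 25
  have h8 : (q1:ℝ) * q ≤ q ^ 2 * (1 / 25) := by
    have h9 : (q1:ℝ) * q * l ≤ q ^ 2 * (1 / 25) * l := by
      have h10 : (q:ℝ) ^ 2 * l * ρ ≤ q ^ 2 * l := by nlinarith [mul_pos (pow_pos hqr 2) hl]
      nlinarith
    exact le_of_mul_le_mul_right h9 hl
  -- q1^2 ≤ 4/25 a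
  have h9 : (q1:ℝ) ^ 2 ≤ 4 / 25 * a := by
    have h10 : ((q1:ℝ) * q * l) ^ 2 ≤ 4 ^ 2 := pow_le_pow_left₀ (by positivity) hq1l.le 2
    have h11 : (q1:ℝ) ^ 2 * (q ^ 2 * l * l) ≤ 16 := by nlinarith
    have h12 : (100:ℝ) * a * l ≤ q ^ 2 * l * ρ * (a * l) := by
      have := mul_le_mul_of_nonneg_right hbig (by positivity : (0:ℝ) ≤ a * l)
      linarith
    have h13 : (0:ℝ) < q ^ 2 * l * l := by positivity
    have h14 : (q1:ℝ) ^ 2 * (q ^ 2 * l * l) ≤ 4 / 25 * a * (q ^ 2 * l * l) := by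
      have h15 : 16 ≤ 4 / 25 * (a:ℝ) * (q ^ 2 * l * l) := by
        have h16 : (100:ℝ) * ρ ≤ 100 * (a * l) := by linarith
        have h17 : (100:ℝ) * (a * l) ≤ q ^ 2 * l * ρ * (a * l) := by linarith
        have h18 : (100:ℝ) ≤ q ^ 2 * l * (a * l) := by
          calc (100:ℝ) ≤ q ^ 2 * l * ρ := hbig
            _ ≤ q ^ 2 * l * (a * l) := mul_le_mul_of_nonneg_left ha.le (by positivity)
        nlinarith
      linarith
    exact le_of_mul_le_mul_right h14 h13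
  nlinarith [mul_pos ha0 (pow_pos hqr 2), mul_le_mul_of_nonneg_right h9 (pow_pos hqr 2).le,
    mul_le_mul_of_nonneg_right h8 ha0.le, mul_le_mul_of_nonneg_right h4a ha0.le]

end Run7.h952.DI
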