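import Pool.Agent.Run7.h952.DI.Ctr

set_option autoImplicit false

/-!
# A good rational near an interval: the middle case
-/

namespace Run7.h952.DI

/-- The form. -/
def frm (a b c p q : ℤ) : ℤ := a * p ^ 2 - b * p * q + c * q ^ 2

lemma frm_id {a b c : ℤ} (h : b ^ 2 + 3 = 4 * a * c) (p q : ℤ) :
    4 * a * frm a b c p q = (2 * a * p - b * q) ^ 2 + 3 * q ^ 2 := by
  unfold frm
  linear_combination (-q ^ 2) * h

lemma frm_pos {a b c : ℤ} (ha : 0 < a) (h : b ^ 2 + 3 = 4 * a * c) {p q : ℤ} (hq : 0 < q) :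
    0 < frm a b c p q := by
  have h2 : 0 < 4 * a * frm a b c p q := by
    rw [frm_id h]; positivity
  exact (mul_pos_iff_of_pos_left (by omega)).1 h2

/-- Bounds for a form whose centre is near the rational `(p m + p') / (q m + q')`. -/
lemma bounds {ρ l κ : ℝ} (hρ : 0 < ρ) (hl : 0 < l) (hκ0 : 0 < κ)
    (hκ : κ ≤ 1 / 400) {p q p' q' : ℤ} (hq : 0 < q) (hdet : p' * q - p * q' = 1) (hq'0 : 0 ≤ q')
    (hq'q : q' < q) (hup : (q:ℝ) ^ 2 * l * ρ ≤ 100) {m : ℤ} (hm : 1 ≤ m) {a b c : ℤ} (ha : 0 < a)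
    (hc : b ^ 2 + 3 = 4 * a * c) (hal : ρ < a * l)
    (hk : |2 * (a:ℝ) * ((p * m + p' : ℤ) / (q * m + q' : ℤ)) - b| < κ) {N : ℤ}
    (hN : 400 / ρ ^ 2 ≤ N) (hq'p : 0 < frm a b c p q) :
    frm a b c p q ≤ N ∧ |2 * a * p * p' - b * (p * q' + p' * q) + 2 * c * q * q'| ≤ 2 * N + 4 := by
  set Q : ℤ := q * m + q' with hQ
  set P : ℤ := p * m + p' with hP
  have hQpos : 0 < Q := by
    have : 0 < q * m := mul_pos hq (by omega)
    omega
  have hQq : q ≤ Q := by nlinarith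
  set n := frm a b c p q with hn
  set n' := frm a b c p' q' with hn'
  set E := 2 * a * p * p' - b * (p * q' + p' * q) + 2 * c * q * q' with hE
  set G := frm a b c P Q with hG
  have hGpos : 0 < G := frm_pos ha hc hQpos
  set k := 2 * a * P - b * Q with hkd
  have hGid : 4 * a * G = k ^ 2 + 3 * Q ^ 2 := frm_id hc P Q
  have hstar : a + q ^ 2 * G = n * Q ^ 2 + k * q := by
    have h1 : a * (p' * q - p * q') ^ 2 + q ^ 2 * G =
        n * Q ^ 2 + k * q * (p' * q - p * q') := by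
      rw [hG, hn, hkd, hP, hQ]
      unfold frm
      ring
    rw [hdet] at h1
    linarith
  have hE2 : (q * E - 2 * n * q') ^ 2 = 4 * n * a - 3 * q ^ 2 := by
    have h1 : (q * E - 2 * n * q') ^ 2 = 4 * n * (a * (p' * q - p * q') ^ 2) +
        q ^ 2 * ((b ^ 2 - 4 * a * c) * (p' * q - p * q') ^ 2) := by
      rw [hE, hn]
      unfold frm
      ring
    rw [hdet] at h1
    linear_combination h1 + q ^ 2 * hc
  have hQr : (0:ℝ) < Q := by exact_mod_cast hQpos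
  have hqr : (0:ℝ) < q := by exact_mod_cast hq
  have hQqr : (q:ℝ) ≤ Q := by exact_mod_cast hQq
  have har : (0:ℝ) < a := by exact_mod_cast ha
  have hGr : (1:ℝ) ≤ G := by exact_mod_cast hGpos
  have hnr : (1:ℝ) ≤ n := by exact_mod_cast hq'p
  have hkr : |(k:ℝ)| < κ * Q := by
    have e : (k:ℝ) = (2 * (a:ℝ) * ((P:ℝ) / Q) - b) * Q := by
      rw [hkd]; push_cast; field_simp
    rw [e, abs_mul, abs_of_pos hQr]
    exact mul_lt_mul_of_pos_right hk hQr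
  have hk2 : (k:ℝ) ^ 2 ≤ 1 / 400 * Q ^ 2 := by
    have h1 : |(k:ℝ)| ^ 2 ≤ (κ * Q) ^ 2 := pow_le_pow_left₀ (abs_nonneg _) hkr.le 2
    rw [sq_abs, mul_pow] at h1
    have h2 : κ ^ 2 ≤ 1 / 400 := by nlinarith
    have := mul_le_mul_of_nonneg_right h2 (by positivity : (0:ℝ) ≤ (Q:ℝ) ^ 2)
    linarith
  have hGidr : 4 * (a:ℝ) * G = (k:ℝ) ^ 2 + 3 * Q ^ 2 := by exact_mod_cast hGid
  have hstarr : (a:ℝ) + q ^ 2 * G = n * Q ^ 2 + k * q := by exact_mod_cast hstar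
  have h4aG : 4 * (a:ℝ) * G ≤ 301 / 100 * Q ^ 2 := by nlinarith [pow_pos hQr 2]
  have h4a : 4 * (a:ℝ) ≤ 301 / 100 * Q ^ 2 := by nlinarith
  have hkq : -(1 / 400 * (Q:ℝ) ^ 2) ≤ k * q := by
    have h1 : |(k:ℝ) * q| ≤ 1 / 400 * Q ^ 2 := by
      rw [abs_mul, abs_of_pos hqr]
      calc |(k:ℝ)| * q ≤ (κ * Q) * Q := mul_le_mul hkr.le hQqr hqr.le (by positivity)
        _ = κ * Q ^ 2 := by ring
        _ ≤ 1 / 400 * Q ^ 2 := mul_le_mul_of_nonneg_right hκ (by positivity)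
    linarith [(abs_le.1 h1).1]
  have hQ2 : (0:ℝ) < (Q:ℝ) ^ 2 := by positivity
  have hq2G : 245 / 1000 * n * (Q:ℝ) ^ 2 ≤ q ^ 2 * G := by
    nlinarith [mul_le_mul_of_nonneg_right hnr hQ2.le]
  have han : (a:ℝ) * n ≤ 308 / 100 * q ^ 2 := by
    have h1 : 4 * (a:ℝ) * (245 / 1000 * n * (Q:ℝ) ^ 2) ≤ 4 * a * (q ^ 2 * G) :=
      mul_le_mul_of_nonneg_left hq2G (by positivity)
    have h2 : 4 * (a:ℝ) * (q ^ 2 * G) = q ^ 2 * (4 * a * G) := by ring
    have h3 : (q:ℝ) ^ 2 * (4 * a * G) ≤ q ^ 2 * (301 / 100 * Q ^ 2) :=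
      mul_le_mul_of_nonneg_left h4aG (by positivity)
    have h4 : (a:ℝ) * n * Q ^ 2 ≤ 308 / 100 * q ^ 2 * Q ^ 2 := by nlinarith [pow_pos hqr 2]
    exact le_of_mul_le_mul_right h4 hQ2
  have hnN : (n:ℝ) ≤ N := by
    refine le_trans ?_ hN
    rw [le_div_iff₀ (by positivity)]
    have h1 : ρ * n ≤ a * l * n := mul_le_mul_of_nonneg_right hal.le (by linarith)
    have h2 : (a:ℝ) * l * n ≤ 308 / 100 * q ^ 2 * l := by
      have := mul_le_mul_of_nonneg_right han hl.le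
      linarith
    have h3 : ρ * n * ρ ≤ 308 / 100 * q ^ 2 * l * ρ :=
      mul_le_mul_of_nonneg_right (h1.trans h2) hρ.le
    nlinarith
  refine ⟨by exact_mod_cast hnN, ?_⟩
  have hE2r : ((q:ℝ) * E - 2 * n * q') ^ 2 = 4 * n * a - 3 * q ^ 2 := by exact_mod_cast hE2
  have hX : |(q:ℝ) * E - 2 * n * q'| ≤ 4 * q := by
    have h1 : |(q:ℝ) * E - 2 * n * q'| ^ 2 ≤ (4 * q) ^ 2 := by
      rw [sq_abs, hE2r]
      nlinarith [pow_pos hqr 2]
    exact (pow_le_pow_iff_left₀ (abs_nonneg _) (by positivity) two_ne_zero).1 h1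
  have hq'r : (0:ℝ) ≤ q' := by exact_mod_cast hq'0
  have hq'qr : (q':ℝ) ≤ q := by exact_mod_cast hq'q.le
  have h5 : |(q:ℝ) * E| ≤ (2 * N + 4) * q := by
    have h6 : |(q:ℝ) * E| ≤ |(q:ℝ) * E - 2 * n * q'| + |2 * (n:ℝ) * q'| := by
      have := abs_add_le ((q:ℝ) * E - 2 * n * q') (2 * n * q')
      rwa [sub_add_cancel] at this
    rw [abs_of_nonneg (by positivity : (0:ℝ) ≤ 2 * (n:ℝ) * q')] at h6
    have h7 : 2 * (n:ℝ) * q' ≤ 2 * N * q := by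
      apply mul_le_mul (by linarith) hq'qr hq'r (by linarith)
    nlinarith
  rw [abs_mul, abs_of_pos hqr, mul_comm] at h5
  have h8 : |(E:ℝ)| ≤ 2 * N + 4 := le_of_mul_le_mul_right h5 hqr
  exact_mod_cast h8

/-- The middle case. -/
theorem middle (ρ : ℝ) (hρ : 0 < ρ) (hρ1 : ρ ≤ 1) : ∃ κ : ℝ, 0 < κ ∧ κ ≤ 1 / 2 ∧ ∃ M : ℕ,
    ∀ l : ℝ, 0 < l → ∀ p q p' q' : ℤ, 0 < q → p' * q - p * q' = 1 → 0 ≤ q' → q' < q →
      ρ / 2 ≤ (q:ℝ) ^ 2 * l → (q:ℝ) ^ 2 * l * ρ ≤ 100 →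
      ∃ P Q : ℤ, q ≤ Q ∧ Q ≤ q * M ∧ (p:ℝ) / q ≤ P / Q ∧ (P:ℝ) / Q ≤ p / q + l / 4 ∧
        ∀ a b : ℤ, Val a b → ρ < a * l → κ ≤ |2 * (a:ℝ) * ((P:ℝ) / Q) - b| := by
  classical
  obtain ⟨m0, hm0⟩ := exists_nat_ge (8 / ρ)
  obtain ⟨N, hN⟩ := exists_nat_ge (400 / ρ ^ 2)
  set Bx : Finset (ℤ × ℤ) := Finset.Icc (1:ℤ) N ×ˢ Finset.Icc (-(2 * (N:ℤ) + 4)) (2 * N + 4) with hBx
  have hm0pos : 1 ≤ m0 := by
    have h1 : (0:ℝ) < 8 / ρ := by positivity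
    have h2 : (0:ℝ) < m0 := by linarith
    exact_mod_cast h2
  set M1 : ℕ := m0 + Bx.card with hM1
  set κ : ℝ := ρ ^ 2 / (400 * ((M1:ℝ) + 1) ^ 2) with hκ
  have hM1r : (1:ℝ) ≤ (M1:ℝ) + 1 := by
    have : (0:ℝ) ≤ M1 := Nat.cast_nonneg _
    linarith
  have hκ0 : 0 < κ := by positivity
  have hκ400 : κ ≤ 1 / 400 := by
    rw [hκ, div_le_div_iff₀ (by positivity) (by norm_num)]
    nlinarith [pow_le_one₀ hρ.le hρ1 (n := 2), one_le_pow₀ hM1r (n := 2)]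
  refine ⟨κ, hκ0, by linarith, M1 + 1, ?_⟩
  intro l hl p q p' q' hq hdet hq'0 hq'q hlow hup
  by_contra hcon
  push Not at hcon
  have hqr : (0:ℝ) < q := by exact_mod_cast hq
  have hdr : (p':ℝ) * q - p * q' = 1 := by exact_mod_cast hdet
  have key : ∀ m ∈ Finset.Icc m0 M1, ∃ a b c : ℤ, 0 < a ∧ b ^ 2 + 3 = 4 * a * c ∧ ρ < a * l ∧
      |2 * (a:ℝ) * ((p * m + p' : ℤ) / (q * m + q' : ℤ)) - b| < κ := by
    intro m hm
    rw [Finset.mem_Icc] at hm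
    have hmr : (m0:ℝ) ≤ m := by exact_mod_cast hm.1
    have hm1 : (1:ℤ) ≤ m := by omega
    have hQpos : 0 < q * m + q' := by
      have : 0 < q * (m:ℤ) := mul_pos hq (by omega)
      omega
    have hQr : (0:ℝ) < ((q * m + q' : ℤ):ℝ) := by exact_mod_cast hQpos
    have hdiff : ((p * m + p' : ℤ):ℝ) / ((q * m + q' : ℤ):ℝ) - p / q =
        1 / (q * ((q * m + q' : ℤ):ℝ)) := by
      have e1 : ((p * m + p' : ℤ):ℝ) * q - p * ((q * m + q' : ℤ):ℝ) = 1 := by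
        push_cast
        linear_combination hdr
      rw [div_sub_div _ _ hQr.ne' hqr.ne']
      rw [show ((p * m + p' : ℤ):ℝ) * q - ((q * m + q' : ℤ):ℝ) * p = 1 by linarith]
      rw [mul_comm]
    have h3 : (q:ℝ) ^ 2 * m ≤ q * ((q * m + q' : ℤ):ℝ) := by
      have : (0:ℝ) ≤ q' := by exact_mod_cast hq'0
      push_cast
      nlinarith [mul_nonneg hqr.le this]
    have h4 : 1 / (q * ((q * m + q' : ℤ):ℝ)) ≤ l / 4 := by
      rw [div_le_iff₀ (by positivity)]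
      have h5 : (8:ℝ) ≤ m * ρ := by
        have := mul_le_mul_of_nonneg_right (hm0.trans hmr) hρ.le
        rwa [div_mul_cancel₀ _ hρ.ne'] at this
      have h6 : (4:ℝ) ≤ (q:ℝ) ^ 2 * l * m := by
        have h7 : ρ / 2 * m ≤ (q:ℝ) ^ 2 * l * m :=
          mul_le_mul_of_nonneg_right hlow (Nat.cast_nonneg _)
        linarith
      nlinarith
    obtain ⟨a, b, hv, hal, hlt⟩ := hcon (p * m + p') (q * m + q') (by nlinarith) (by
      push_cast
      have h5 : (m:ℤ) ≤ M1 := by exact_mod_cast hm.2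
      have : q * (m:ℤ) ≤ q * M1 := mul_le_mul_of_nonneg_left h5 hq.le
      linarith) (by
        have : (0:ℝ) < 1 / (q * ((q * m + q' : ℤ):ℝ)) := by positivity
        linarith) (by linarith)
    obtain ⟨ha, c, hc⟩ := hv
    exact ⟨a, b, c, ha, hc, hal, hlt⟩
  choose! A B C hA hC hAl hlt using key
  obtain ⟨m, hm, m', hm', hne, hFF⟩ := Finset.exists_ne_map_eq_of_card_lt_of_maps_to
    (s := Finset.Icc m0 M1) (t := Bx)
    (f := fun m => (frm (A m) (B m) (C m) p q,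
      2 * A m * p * p' - B m * (p * q' + p' * q) + 2 * C m * q * q')) (by
      rw [Nat.card_Icc]; omega) (by
      intro m hm
      rw [Finset.mem_coe] at hm
      have hfp : 0 < frm (A m) (B m) (C m) p q := frm_pos (hA m hm) (hC m hm) hq
      have hm1 : (1:ℤ) ≤ (m:ℤ) := by
        rw [Finset.mem_Icc] at hm
        omega
      have hb := bounds hρ hl hκ0 hκ400 hq hdet hq'0 hq'q hup (m := (m:ℤ)) hm1 (hA m hm)
        (hC m hm) (hAl m hm) (hlt m hm) (N := (N:ℤ)) (by exact_mod_cast hN) hfp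
      rw [hBx, Finset.mem_coe, Finset.mem_product, Finset.mem_Icc, Finset.mem_Icc]
      have := abs_le.1 hb.2
      exact ⟨⟨by show (1:ℤ) ≤ frm (A m) (B m) (C m) p q; omega, hb.1⟩, ⟨this.1, this.2⟩⟩)
  simp only [Prod.mk.injEq] at hFF
  obtain ⟨hF1, hF2⟩ := hFF
  have hfp : 0 < frm (A m) (B m) (C m) p q := frm_pos (hA m hm) (hC m hm) hq
  have hdisc : ∀ a b c : ℤ, b ^ 2 + 3 = 4 * a * c →
      (2 * a * p * p' - b * (p * q' + p' * q) + 2 * c * q * q') ^ 2 + 3 =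
        4 * frm a b c p q * frm a b c p' q' := by
    intro a b c hc
    have h1 : (2 * a * p * p' - b * (p * q' + p' * q) + 2 * c * q * q') ^ 2 -
        4 * frm a b c p q * frm a b c p' q' = (b ^ 2 - 4 * a * c) * (p' * q - p * q') ^ 2 := by
      unfold frm
      ring
    rw [hdet] at h1
    linear_combination h1 + hc
  have hF3 : frm (A m) (B m) (C m) p' q' = frm (A m') (B m') (C m') p' q' := by
    have h1 := hdisc _ _ _ (hC m hm)
    have h2 := hdisc _ _ _ (hC m' hm')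
    rw [← hF1, ← hF2] at h2
    have h3 : 4 * frm (A m) (B m) (C m) p q * (frm (A m) (B m) (C m) p' q' -
        frm (A m') (B m') (C m') p' q') = 0 := by linear_combination h2 - h1
    rcases mul_eq_zero.1 h3 with h | h
    · omega
    · omega
  have hArec : ∀ a b c : ℤ, a = q' ^ 2 * frm a b c p q -
      q * q' * (2 * a * p * p' - b * (p * q' + p' * q) + 2 * c * q * q') +
      q ^ 2 * frm a b c p' q' := by
    intro a b c
    have h1 : q' ^ 2 * frm a b c p q -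
      q * q' * (2 * a * p * p' - b * (p * q' + p' * q) + 2 * c * q * q') +
      q ^ 2 * frm a b c p' q' = a * (p' * q - p * q') ^ 2 := by
      unfold frm
      ring
    rw [hdet] at h1
    linarith
  have hBrec : ∀ a b c : ℤ, b = 2 * p' * q' * frm a b c p q -
      (p * q' + p' * q) * (2 * a * p * p' - b * (p * q' + p' * q) + 2 * c * q * q') +
      2 * p * q * frm a b c p' q' := by
    intro a b c
    have h1 : 2 * p' * q' * frm a b c p q -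
      (p * q' + p' * q) * (2 * a * p * p' - b * (p * q' + p' * q) + 2 * c * q * q') +
      2 * p * q * frm a b c p' q' = b * (p' * q - p * q') ^ 2 := by
      unfold frm
      ring
    rw [hdet] at h1
    linarith
  have hAA : A m = A m' := by
    have h1 := hArec (A m) (B m) (C m)
    have h2 := hArec (A m') (B m') (C m')
    rw [← hF1, ← hF2, ← hF3] at h2
    linarith
  have hBB : B m = B m' := by
    have h1 := hBrec (A m) (B m) (C m)
    have h2 := hBrec (A m') (B m') (C m')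
    rw [← hF1, ← hF2, ← hF3] at h2
    linarith
  -- the contradiction
  have h1 := hlt m hm
  have h2 := hlt m' hm'
  rw [← hAA, ← hBB] at h2
  rw [Finset.mem_Icc] at hm hm'
  set Q : ℤ := q * m + q' with hQ
  set Q' : ℤ := q * m' + q' with hQ'
  have hQb : ∀ j : ℕ, 1 ≤ j → j ≤ M1 → (0:ℝ) < ((q * j + q' : ℤ):ℝ) ∧
      ((q * j + q' : ℤ):ℝ) ≤ q * ((M1:ℝ) + 1) := by
    intro j hj1 hj2
    have : 0 < q * (j:ℤ) := mul_pos hq (by omega)
    have h3 : 0 < q * (j:ℤ) + q' := by omega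
    refine ⟨by exact_mod_cast h3, ?_⟩
    have h4 : q * (j:ℤ) ≤ q * M1 := mul_le_mul_of_nonneg_left (by exact_mod_cast hj2) hq.le
    have h5 : q * (j:ℤ) + q' ≤ q * ((M1:ℤ) + 1) := by linarith
    exact_mod_cast h5
  obtain ⟨hQ0, hQ1⟩ := hQb m (by omega) hm.2
  obtain ⟨hQ'0, hQ'1⟩ := hQb m' (by omega) hm'.2
  have hAr : (0:ℝ) < A m := by
    have := hAl m (Finset.mem_Icc.2 hm)
    by_contra hneg
    push Not at hneg
    nlinarith
  have hdiff : 2 * (A m:ℝ) * ((p * m + p' : ℤ) / (Q:ℤ)) - B m -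
      (2 * (A m:ℝ) * ((p * m' + p' : ℤ) / (Q':ℤ)) - B m) =
      2 * A m * ((m':ℝ) - m) / (Q * Q') := by
    have e1 : ((p * m + p' : ℤ):ℝ) * Q' - Q * ((p * m' + p' : ℤ):ℝ) = (m':ℝ) - m := by
      rw [hQ, hQ']
      push_cast
      linear_combination ((m':ℝ) - m) * hdr
    have hQ0' : (Q:ℝ) ≠ 0 := hQ0.ne'
    have hQ'0' : (Q':ℝ) ≠ 0 := hQ'0.ne'
    have e2 : 2 * (A m:ℝ) * (((p * m + p' : ℤ):ℝ) / (Q:ℝ)) - B m -
      (2 * (A m:ℝ) * (((p * m' + p' : ℤ):ℝ) / (Q':ℝ)) - B m) =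
      2 * A m * (((p * m + p' : ℤ):ℝ) / (Q:ℝ) - ((p * m' + p' : ℤ):ℝ) / (Q':ℝ)) := by ring
    rw [e2, div_sub_div _ _ hQ0' hQ'0', e1]
    ring
  have hmm : (1:ℝ) ≤ |(m':ℝ) - m| := by
    have : (1:ℤ) ≤ |(m':ℤ) - m| := Int.one_le_abs (by omega)
    exact_mod_cast this
  have h3 : |2 * (A m:ℝ) * ((m':ℝ) - m) / (Q * Q')| < 2 * κ := by
    rw [← hdiff]
    have := abs_sub (2 * (A m:ℝ) * ((p * m + p' : ℤ) / (Q:ℤ)) - B m)
      (2 * (A m:ℝ) * ((p * m' + p' : ℤ) / (Q':ℤ)) - B m)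
    linarith
  rw [abs_div, abs_of_pos (mul_pos hQ0 hQ'0), div_lt_iff₀ (mul_pos hQ0 hQ'0), abs_mul,
    abs_of_pos (by positivity : (0:ℝ) < 2 * (A m:ℝ))] at h3
  have h4 : 2 * (A m:ℝ) < 2 * κ * (Q * Q') := by nlinarith
  have h5 : (Q:ℝ) * Q' ≤ (q * ((M1:ℝ) + 1)) * (q * ((M1:ℝ) + 1)) :=
    mul_le_mul hQ1 hQ'1 hQ'0.le (by positivity)
  have h6 : (A m:ℝ) < κ * (q ^ 2 * ((M1:ℝ) + 1) ^ 2) := by
    have := mul_le_mul_of_nonneg_left h5 hκ0.le
    nlinarith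
  have h7 : ρ < κ * (q ^ 2 * ((M1:ℝ) + 1) ^ 2) * l := by
    have h8 := hAl m (Finset.mem_Icc.2 hm)
    have h9 := mul_lt_mul_of_pos_right h6 hl
    linarith
  have h8 : κ * (q ^ 2 * ((M1:ℝ) + 1) ^ 2) * l * ρ = ρ ^ 2 / 400 * (q ^ 2 * l * ρ) := by
    rw [hκ]
    field_simp
  have h9 : ρ * ρ < κ * (q ^ 2 * ((M1:ℝ) + 1) ^ 2) * l * ρ := mul_lt_mul_of_pos_right h7 hρ
  rw [h8] at h9
  nlinarith [mul_le_mul_of_nonneg_left hup (by positivity : (0:ℝ) ≤ ρ ^ 2 / 400), pow_pos hρ 2]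

end Run7.h952.DI
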