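import Pool.Agent.Run7.h952.DI.Step
import Pool.Agent.Run7.h952.DI.Far
import Pool.Agent.Run7.h952.DI.Pig

set_option autoImplicit false

/-!
# A cusp excursion inside any good interval
-/

namespace Run7.h952.DI

lemma good_mono {r : ℕ} {κ κ' : ℝ} (h : κ' ≤ κ) {N : ℕ} {x : ℝ} (hg : Good r κ N x) :
    Good r κ' N x := fun a b hv ha y h1 h2 => h.trans (hg a b hv ha y h1 h2)

lemma descend {r : ℕ} (hr : 6 ≤ r) {κ : ℝ} (hκ : κ ≤ (1 / 2) ^ (2 * r)) (L : ℕ) :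
    ∀ (N : ℕ) (x : ℝ), Good r κ N x → ∃ x' : ℝ, x ≤ x' ∧
      x' + (1 / 2) ^ (r * (N + L)) ≤ x + (1 / 2) ^ (r * N) ∧ Good r κ (N + L) x' := by
  induction L with
  | zero => intro N x h; exact ⟨x, le_rfl, le_rfl, h⟩
  | succ L ih =>
    intro N x h
    obtain ⟨x1, h1, h2, h3⟩ := ih N x h
    obtain ⟨f, hf, -⟩ := step hr hκ h3
    have hpos : 0 < 2 ^ (r - 2) := by positivity
    obtain ⟨g1, g2, g3⟩ := hf ⟨0, hpos⟩
    exact ⟨f ⟨0, hpos⟩, h1.trans g2, g3.trans h2, g1⟩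

lemma core {r : ℕ} {κ κ' ε : ℝ} (hε : 0 < ε) (hκ' : 0 < κ') (hκκ : κ ≤ κ' / 2)
    (hκ1 : κ ≤ 1 / 2) {N : ℕ} {x : ℝ} (hg : Good r κ N x) {P Q : ℤ} (hQ : 0 < Q)
    (h1 : x ≤ (P:ℝ) / Q) (h2 : (P:ℝ) / Q ≤ x + 3 / 4 * (1 / 2) ^ (r * N))
    (hf : ∀ a b : ℤ, Val a b → (1 / 2) ^ r < (a:ℝ) * (1 / 2) ^ (r * N) →
      κ' ≤ |2 * (a:ℝ) * ((P:ℝ) / Q) - b|) {L : ℕ}
    (c1 : (1 / 2 : ℝ) ^ (r * L) ≤ (Q:ℝ) ^ 2 * (1 / 2) ^ (r * N) / 4)
    (c2 : (Q:ℝ) ^ 2 * (1 / 2) ^ (r * N) * (1 / 2) ^ (r * L) ≤ 1 / 16)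
    (c3 : (Q:ℝ) ^ 2 * (1 / 2) ^ (r * N) * (1 / 2) ^ (r * L) ≤ ε ^ 2)
    (c4 : (Q:ℝ) ^ 2 * (1 / 2) ^ (r * N) * (1 / 2) ^ (r * L) ≤ κ' ^ 2 / 64) :
    ∃ x' : ℝ, x ≤ x' ∧ x' + (1 / 2) ^ (r * (N + (L + 1))) ≤ x + (1 / 2) ^ (r * N) ∧
      Good r κ (N + (L + 1)) x' ∧
      ∀ y : ℝ, x' ≤ y → y ≤ x' + (1 / 2) ^ (r * (N + (L + 1))) →
        ∃ p q : ℤ, 0 < q ∧ (q:ℝ) * |q * y - p| ≤ ε := by
  set l : ℝ := (1 / 2) ^ (r * N) with hl
  set θ : ℝ := (1 / 2) ^ (r * L) with hθ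
  have hl0 : 0 < l := by positivity
  have hθ0 : 0 < θ := by positivity
  set s : ℝ := Real.sqrt (l * θ) with hs
  have hs2 : s ^ 2 = l * θ := Real.sq_sqrt (by positivity)
  have hs0 : 0 < s := Real.sqrt_pos.2 (by positivity)
  have hQr : (0:ℝ) < Q := by exact_mod_cast hQ
  have hlen : (1 / 2 : ℝ) ^ (r * (N + (L + 1))) = (1 / 2) ^ r * s ^ 2 := by
    rw [hs2, hl, hθ, ← pow_add, ← pow_add]
    congr 1
    ring
  have hρ0 : (0:ℝ) < (1 / 2) ^ r := by positivity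
  have hρ1 : (1 / 2 : ℝ) ^ r ≤ 1 := pow_le_one₀ (by norm_num) (by norm_num)
  have hQs : ((Q:ℝ) * s) ^ 2 = Q ^ 2 * l * θ := by rw [mul_pow, hs2]; ring
  have hQs0 : 0 < (Q:ℝ) * s := by positivity
  have d1 : s ≤ l * Q / 2 := by
    have : s ^ 2 ≤ (l * Q / 2) ^ 2 := by
      rw [hs2]
      have := mul_le_mul_of_nonneg_left c1 hl0.le
      calc l * θ ≤ l * (Q ^ 2 * l / 4) := this
        _ = (l * Q / 2) ^ 2 := by ring
    exact (pow_le_pow_iff_left₀ hs0.le (by positivity) two_ne_zero).1 this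
  have d2 : (Q:ℝ) * s ≤ 1 / 4 := by
    have : ((Q:ℝ) * s) ^ 2 ≤ (1 / 4) ^ 2 := by rw [hQs]; linarith
    exact (pow_le_pow_iff_left₀ hQs0.le (by norm_num) two_ne_zero).1 this
  have d3 : (Q:ℝ) * s ≤ ε := by
    have : ((Q:ℝ) * s) ^ 2 ≤ ε ^ 2 := by rw [hQs]; linarith
    exact (pow_le_pow_iff_left₀ hQs0.le hε.le two_ne_zero).1 this
  have d4 : (Q:ℝ) * s ≤ κ' / 8 := by
    have : ((Q:ℝ) * s) ^ 2 ≤ (κ' / 8) ^ 2 := by rw [hQs]; linarith
    exact (pow_le_pow_iff_left₀ hQs0.le (by positivity) two_ne_zero).1 this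
  have e1 : s / (4 * Q) ≤ l / 8 := by
    rw [div_le_iff₀ (by positivity)]
    linarith
  have e2 : (1 / 2 : ℝ) ^ r * s ^ 2 ≤ s / (4 * Q) := by
    rw [le_div_iff₀ (by positivity)]
    have h3 : (1 / 2 : ℝ) ^ r * s ^ 2 * (4 * Q) = ((1 / 2) ^ r * (4 * (Q * s))) * s := by ring
    rw [h3]
    have h4 : (1 / 2 : ℝ) ^ r * (4 * (Q * s)) ≤ 1 * 1 :=
      mul_le_mul hρ1 (by linarith) (by positivity) (by norm_num)
    nlinarith
  have hs4 : 0 < s / (4 * Q) := by positivity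
  rw [hlen]
  refine ⟨P / Q + s / (4 * Q), by linarith, by linarith, ?_, ?_⟩
  · intro a b hv ha y hy1 hy2
    rw [hlen] at hy2
    have ha0 : (0:ℝ) < a := by exact_mod_cast hv.1
    by_cases hal : (a:ℝ) * l ≤ (1 / 2) ^ r
    · refine hg a b hv ?_ y (by linarith) (by rw [← hl]; linarith)
      have h3 : (2:ℝ) ^ (r * N) * l = 1 := by rw [hl, ← mul_pow]; norm_num
      have h4 : (2:ℝ) ^ r * (1 / 2) ^ r = 1 := by rw [← mul_pow]; norm_num
      have h5 : (a:ℝ) * l * (2 ^ r * 2 ^ (r * N)) ≤ (1 / 2) ^ r * (2 ^ r * 2 ^ (r * N)) :=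
        mul_le_mul_of_nonneg_right hal (by positivity)
      have h6 : (a:ℝ) * l * (2 ^ r * 2 ^ (r * N)) = a * 2 ^ r * (2 ^ (r * N) * l) := by ring
      have h7 : (1 / 2 : ℝ) ^ r * (2 ^ r * 2 ^ (r * N)) = (2 ^ r * (1 / 2) ^ r) * 2 ^ (r * N) := by
        ring
      rw [h6, h7, h3, h4] at h5
      linarith
    · push Not at hal
      have hβ := hf a b hv hal
      set β : ℝ := 2 * (a:ℝ) * ((P:ℝ) / Q) - b with hβd
      have has : (a:ℝ) * s ^ 2 ≤ 1 := by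
        have h3 : (2:ℝ) ^ (r * (N + (L + 1))) * ((1 / 2) ^ r * s ^ 2) = 1 := by
          rw [← hlen, ← mul_pow]; norm_num
        have h4 := mul_le_mul_of_nonneg_right ha (by positivity : (0:ℝ) ≤ (1 / 2) ^ r * s ^ 2)
        rw [h3] at h4
        have h5 : (2:ℝ) ^ r * (1 / 2) ^ r = 1 := by rw [← mul_pow]; norm_num
        have h6 : (a:ℝ) * 2 ^ r * ((1 / 2) ^ r * s ^ 2) = a * s ^ 2 * (2 ^ r * (1 / 2) ^ r) := by
          ring
        rw [h6, h5] at h4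
        linarith
      set δ : ℝ := y - P / Q with hδ
      have hδ0 : 0 < δ := by linarith
      have hδ1 : δ ≤ s / (2 * Q) := by
        have : s / (2 * Q) = s / (4 * Q) + s / (4 * Q) := by field_simp; norm_num
        linarith
      have hy : 2 * (a:ℝ) * y - b = β + 2 * a * δ := by rw [hβd, hδ]; ring
      set τ : ℝ := a * s / Q with hτ
      have hτ0 : 0 < τ := by positivity
      have h2a : 2 * (a:ℝ) * δ ≤ τ := by
        have := mul_le_mul_of_nonneg_left hδ1 (by positivity : (0:ℝ) ≤ 2 * a)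
        have e : 2 * (a:ℝ) * (s / (2 * Q)) = τ := by rw [hτ]; field_simp
        linarith
      have h2a0 : 0 < 2 * (a:ℝ) * δ := by positivity
      set α : ℝ := a / (Q:ℝ) ^ 2 with hα
      have hα0 : 0 < α := by positivity
      have hτ2 : τ ^ 2 ≤ α := by
        have e : τ ^ 2 = α * (a * s ^ 2) := by rw [hτ, hα]; field_simp
        rw [e]
        nlinarith
      rw [hy]
      have habs : |β| - 2 * a * δ ≤ |β + 2 * a * δ| := by
        have h3 := abs_sub_abs_le_abs_sub β (-(2 * a * δ))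
        rw [abs_neg, abs_of_pos h2a0, sub_neg_eq_add] at h3
        exact h3
      by_cases hα4 : α ≤ 4
      · have hτ4 : τ ≤ κ' / 2 := by
          have e : τ = α * (Q * s) := by rw [hτ, hα]; field_simp
          rw [e]
          calc α * (Q * s) ≤ 4 * (κ' / 8) := mul_le_mul hα4 d4 hQs0.le (by norm_num)
            _ = κ' / 2 := by ring
        linarith
      · push Not at hα4
        obtain ⟨n, hn, hn'⟩ := hv.at (p := P) hQ
        have hnr : 4 * (a:ℝ) * n = (2 * a * P - b * Q) ^ 2 + 3 * Q ^ 2 := by exact_mod_cast hn'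
        have hn1 : (1:ℝ) ≤ n := by exact_mod_cast hn
        have hβ2 : 4 * α - 3 ≤ β ^ 2 := by
          have e : 2 * (a:ℝ) * P - b * Q = Q * β := by rw [hβd]; field_simp
          rw [e] at hnr
          have h3 : 4 * (a:ℝ) ≤ (Q * β) ^ 2 + 3 * Q ^ 2 := by nlinarith
          have h4 : 4 * α = 4 * (a:ℝ) / Q ^ 2 := by rw [hα]; ring
          rw [h4, sub_le_iff_le_add, div_le_iff₀ (by positivity)]
          nlinarith
        have h3 : τ + 1 / 2 ≤ |β| := by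
          by_contra hcon
          push Not at hcon
          have h4 : |β| ^ 2 < (τ + 1 / 2) ^ 2 := pow_lt_pow_left₀ hcon (abs_nonneg _) two_ne_zero
          rw [sq_abs] at h4
          nlinarith [sq_nonneg (τ - 1)]
        linarith
  · intro y hy1 hy2
    refine ⟨P, Q, hQ, ?_⟩
    have e : (Q:ℝ) * y - P = Q * (y - P / Q) := by field_simp
    have h3 : 0 ≤ y - (P:ℝ) / Q := by linarith
    rw [e, abs_of_nonneg (by positivity)]
    have h4 : y - (P:ℝ) / Q ≤ s / (2 * Q) := by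
      have : s / (2 * Q) = s / (4 * Q) + s / (4 * Q) := by field_simp; norm_num
      linarith
    calc (Q:ℝ) * (Q * (y - P / Q)) ≤ Q * (Q * (s / (2 * Q))) := by gcongr
      _ = Q * s / 2 := by field_simp
      _ ≤ ε := by linarith

end Run7.h952.DI
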