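import Mathlib

set_option autoImplicit false

/-!
# Integral forms of discriminant `-3`: separation of the centres
-/

namespace Run7.h952.DI

/-- `a X^2 - b X Y + c Y^2` is a positive definite integral form of discriminant `-3`. -/
def Val (a b : ℤ) : Prop := 0 < a ∧ 4 * a ∣ b ^ 2 + 3

theorem Val.odd {a b : ℤ} (h : Val a b) : b % 2 = 1 := by
  obtain ⟨-, c, hc⟩ := h
  rcases Int.even_or_odd b with ⟨k, hk⟩ | ⟨k, hk⟩
  · exfalso
    subst hk
    have : (k + k) ^ 2 + 3 = 4 * (k ^ 2) + 3 := by ring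
    rw [this] at hc
    have : 4 * (k ^ 2) + 3 = 4 * (a * c) := by rw [hc]; ring
    omega
  · omega

/-- Two forms with comparable `a` and near centres are equal. -/
theorem sep {a b a' b' : ℤ} (h : Val a b) (h' : Val a' b') (h1 : a ≤ 2 * a') (h2 : a' ≤ 2 * a)
    {l : ℝ} (hl : 0 < l) (hal : (a:ℝ) * l ≤ 1) (hal' : (a':ℝ) * l ≤ 1)
    (hc : |(b:ℝ) / (2 * a) - b' / (2 * a')| < 3 / 4 * l) : a = a' ∧ b = b' := by
  have hb := h.odd
  have hb' := h'.odd
  obtain ⟨ha, c, hcc⟩ := h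
  obtain ⟨ha', c', hcc'⟩ := h'
  set D : ℤ := 2 * a * c' + 2 * a' * c - b * b' with hD
  have hid : 2 * a * a' * D = (a * b' - a' * b) ^ 2 + 3 * (a ^ 2 + a' ^ 2) := by
    have e1 : 4 * a * c = b ^ 2 + 3 := hcc.symm
    have e2 : 4 * a' * c' = b' ^ 2 + 3 := hcc'.symm
    rw [hD]
    linear_combination a ^ 2 * e2 + a' ^ 2 * e1
  have hpos : 0 < a * a' := mul_pos ha ha'
  have hD3 : 3 ≤ D := by
    by_contra hcon
    have hD2 : D ≤ 2 := by omega
    have h5 : 2 * (a * a') * D ≤ 2 * (a * a') * 2 :=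
      mul_le_mul_of_nonneg_left hD2 (by positivity)
    nlinarith [sq_nonneg (a * b' - a' * b), sq_nonneg (a - a'), sq_nonneg (a + a')]
  have hDodd : D % 2 = 1 := by
    have hbb : (b * b') % 2 = 1 := by
      rw [Int.mul_emod, hb, hb']; norm_num
    have : D = 2 * (a * c' + a' * c) - b * b' := by rw [hD]; ring
    omega
  by_cases hD3' : D = 3
  · rw [hD3'] at hid
    have h0 : (a * b' - a' * b) ^ 2 + 3 * (a - a') ^ 2 = 0 := by linear_combination -hid
    have h1' : (a - a') ^ 2 = 0 := by nlinarith [sq_nonneg (a * b' - a' * b), sq_nonneg (a - a')]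
    have h2' : (a * b' - a' * b) ^ 2 = 0 := by
      nlinarith [sq_nonneg (a * b' - a' * b), sq_nonneg (a - a')]
    have haa : a = a' := by
      have := pow_eq_zero_iff (two_ne_zero) |>.1 h1'
      omega
    refine ⟨haa, ?_⟩
    have h3 := pow_eq_zero_iff (two_ne_zero) |>.1 h2'
    rw [← haa] at h3
    have h4 : a * (b' - b) = 0 := by linear_combination h3
    rcases mul_eq_zero.1 h4 with h5 | h5
    · omega
    · omega
  · exfalso
    have hD5 : 5 ≤ D := by omega
    have h5 : 2 * (a * a') * 5 ≤ 2 * (a * a') * D :=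
      mul_le_mul_of_nonneg_left hD5 (by positivity)
    have h6 : 0 ≤ (2 * a' - a) * (2 * a - a') := mul_nonneg (by omega) (by omega)
    have h7 : 5 * (a * a') ≤ 2 * (a * b' - a' * b) ^ 2 := by nlinarith
    have h7r : 5 * ((a:ℝ) * a') ≤ 2 * ((a:ℝ) * b' - a' * b) ^ 2 := by exact_mod_cast h7
    have har : (0:ℝ) < a := by exact_mod_cast ha
    have har' : (0:ℝ) < a' := by exact_mod_cast ha'
    have e : (b:ℝ) / (2 * a) - b' / (2 * a') = -((a:ℝ) * b' - a' * b) / (2 * (a * a')) := by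
      field_simp
      ring
    rw [e, abs_div, abs_neg, abs_of_pos (by positivity : (0:ℝ) < 2 * (a * a')),
      div_lt_iff₀ (by positivity)] at hc
    have h8 : |(a:ℝ) * b' - a' * b| ^ 2 < (3 / 4 * l * (2 * (a * a'))) ^ 2 := by
      apply pow_lt_pow_left₀ hc (abs_nonneg _) two_ne_zero
    rw [sq_abs] at h8
    have h9 : ((a:ℝ) * l) * (a' * l) ≤ 1 := by
      calc ((a:ℝ) * l) * (a' * l) ≤ 1 * 1 := mul_le_mul hal hal' (by positivity) (by norm_num)
        _ = 1 := by norm_num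
    have h10 : (3 / 4 * l * (2 * ((a:ℝ) * a'))) ^ 2 = 9 / 4 * (((a:ℝ) * l) * (a' * l)) * (a * a') := by
      ring
    rw [h10] at h8
    have hpr : (0:ℝ) < a * a' := by positivity
    nlinarith [mul_le_mul_of_nonneg_right h9 hpr.le]

end Run7.h952.DI
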