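import Pool.Agent.Run7.h952.DI.Blk

set_option autoImplicit false

/-!
# The excursion block
-/

namespace Run7.h952.DI

theorem block (r : ℕ) (hr : 6 ≤ r) : ∃ κ : ℝ, 0 < κ ∧ κ ≤ (1 / 2) ^ (2 * r) ∧
    ∀ ε : ℝ, 0 < ε → ∃ L : ℕ, ∀ (N : ℕ) (x : ℝ), Good r κ N x → ∃ x' : ℝ, x ≤ x' ∧
      x' + (1 / 2) ^ (r * (N + L)) ≤ x + (1 / 2) ^ (r * N) ∧ Good r κ (N + L) x' ∧
      ∀ y : ℝ, x' ≤ y → y ≤ x' + (1 / 2) ^ (r * (N + L)) →
        ∃ p q : ℤ, 0 < q ∧ (q:ℝ) * |q * y - p| ≤ ε := by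
  set ρ : ℝ := (1 / 2) ^ r with hρ
  have hρ0 : 0 < ρ := by positivity
  have hρ1 : ρ ≤ 1 := pow_le_one₀ (by norm_num) (by norm_num)
  obtain ⟨κ', hκ'0, hκ'1, M, hmid⟩ := middle ρ hρ0 hρ1
  set κ : ℝ := min ((1 / 2) ^ (2 * r)) (κ' / 2) with hκ
  have hκ0 : 0 < κ := lt_min (by positivity) (by positivity)
  have hκa : κ ≤ (1 / 2) ^ (2 * r) := min_le_left _ _
  have hκb : κ ≤ κ' / 2 := min_le_right _ _
  refine ⟨κ, hκ0, hκa, fun ε hε => ?_⟩
  set C : ℝ := max (20 / ε) (100 / ρ) with hC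
  have hC0 : 0 < C := lt_max_of_lt_left (by positivity)
  set C' : ℝ := C * ((M:ℝ) ^ 2 + 1) with hC'
  have hC'0 : 0 < C' := by positivity
  have hCC' : C ≤ C' := by
    rw [hC']
    nlinarith [sq_nonneg (M:ℝ)]
  set η : ℝ := min (ε / 4) (min (1 / (16 * C')) (min (ε ^ 2 / C') (κ' ^ 2 / (64 * C')))) with hη
  have hη0 : 0 < η := by
    refine lt_min (by positivity) (lt_min (by positivity) (lt_min (by positivity) (by positivity)))
  have hηa : η ≤ ε / 4 := min_le_left _ _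
  have hηb : η ≤ 1 / (16 * C') := (min_le_right _ _).trans (min_le_left _ _)
  have hηc : η ≤ ε ^ 2 / C' := (min_le_right _ _).trans ((min_le_right _ _).trans (min_le_left _ _))
  have hηd : η ≤ κ' ^ 2 / (64 * C') :=
    (min_le_right _ _).trans ((min_le_right _ _).trans (min_le_right _ _))
  obtain ⟨L, hL⟩ := exists_pow_lt_of_lt_one hη0 (show ρ < 1 from by
    rw [hρ]; exact pow_lt_one₀ (by norm_num) (by norm_num) (by omega))
  have hθ : (1 / 2 : ℝ) ^ (r * L) < η := by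
    rw [pow_mul]
    exact hL
  set θ : ℝ := (1 / 2) ^ (r * L) with hθd
  have hθ0 : 0 < θ := by positivity
  refine ⟨L + 1, fun N x hg => ?_⟩
  set l : ℝ := (1 / 2) ^ (r * N) with hl
  have hl0 : 0 < l := by positivity
  have hl1 : l ≤ 1 := pow_le_one₀ (by norm_num) (by norm_num)
  obtain ⟨p, q, hq, h1, h2, hmin⟩ := min_den (show x < x + l / 2 by linarith)
  have hqr : (0:ℝ) < q := by exact_mod_cast hq
  have hx1 : x ≤ (p:ℝ) / q := by rw [le_div_iff₀ hqr]; exact h1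
  have hx2 : (p:ℝ) / q ≤ x + l / 2 := by rw [div_le_iff₀ hqr]; exact h2
  -- the simple cases
  have hdone : (∀ y : ℝ, x ≤ y → y ≤ x + l → ∃ p q : ℤ, 0 < q ∧ (q:ℝ) * |q * y - p| ≤ ε) →
      ∃ x' : ℝ, x ≤ x' ∧
      x' + (1 / 2) ^ (r * (N + (L + 1))) ≤ x + l ∧ Good r κ (N + (L + 1)) x' ∧
      ∀ y : ℝ, x' ≤ y → y ≤ x' + (1 / 2) ^ (r * (N + (L + 1))) →
        ∃ p q : ℤ, 0 < q ∧ (q:ℝ) * |q * y - p| ≤ ε := by
    intro hall
    obtain ⟨x', g1, g2, g3⟩ := descend hr hκa (L + 1) N x hg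
    exact ⟨x', g1, g2, g3, fun y hy1 hy2 => hall y (g1.trans hy1) (hy2.trans g2)⟩
  by_cases hsmall : (q:ℝ) ^ 2 * l ≤ ε
  · apply hdone
    intro y hy1 hy2
    refine ⟨p, q, hq, ?_⟩
    have e : (q:ℝ) * y - p = q * (y - p / q) := by field_simp
    rw [e, abs_mul, abs_of_pos hqr]
    have h3 : |y - (p:ℝ) / q| ≤ l := by
      rw [abs_le]
      constructor <;> linarith
    calc (q:ℝ) * (q * |y - p / q|) ≤ q * (q * l) := by gcongr
      _ = q ^ 2 * l := by ring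
      _ ≤ ε := hsmall
  push Not at hsmall
  -- the conclusion from a good rational
  have hgood : ∀ P Q : ℤ, 0 < Q → x ≤ (P:ℝ) / Q → (P:ℝ) / Q ≤ x + 3 / 4 * l →
      ε ≤ (Q:ℝ) ^ 2 * l → (Q:ℝ) ^ 2 * l ≤ C' →
      (∀ a b : ℤ, Val a b → ρ < (a:ℝ) * l → κ' ≤ |2 * (a:ℝ) * ((P:ℝ) / Q) - b|) →
      ∃ x' : ℝ, x ≤ x' ∧
      x' + (1 / 2) ^ (r * (N + (L + 1))) ≤ x + l ∧ Good r κ (N + (L + 1)) x' ∧
      ∀ y : ℝ, x' ≤ y → y ≤ x' + (1 / 2) ^ (r * (N + (L + 1))) →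
        ∃ p q : ℤ, 0 < q ∧ (q:ℝ) * |q * y - p| ≤ ε := by
    intro P Q hQ k1 k2 k3 k4 k5
    have hb : ∀ c : ℝ, 0 ≤ c → η ≤ c / C' → (Q:ℝ) ^ 2 * l * θ ≤ c := by
      intro c hc hc'
      calc (Q:ℝ) ^ 2 * l * θ ≤ C' * (c / C') := by
            apply mul_le_mul k4 (hθ.le.trans hc') hθ0.le hC'0.le
        _ = c := by field_simp
    refine core hε hκ'0 hκb (by linarith) hg hQ k1 k2 k5 ?_ ?_ ?_ ?_
    · rw [← hl]
      linarith
    · apply hb (1 / 16) (by norm_num)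
      rw [div_div]
      exact hηb
    · exact hb (ε ^ 2) (by positivity) hηc
    · apply hb (κ' ^ 2 / 64) (by positivity)
      rw [div_div]
      exact hηd
  by_cases hlow : (q:ℝ) ^ 2 * l < ρ / 2
  · -- the rational itself, shallow
    apply hgood p q hq hx1 (by linarith) hsmall.le
    · have h3 : (1:ℝ) ≤ 100 / ρ := by
        rw [le_div_iff₀ hρ0]; linarith
      have h4 : 100 / ρ ≤ C := le_max_right _ _
      linarith
    · intro a b hv hal
      obtain ⟨n, hn, hn'⟩ := hv.at (p := p) hq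
      have ha0 : (0:ℝ) < a := by exact_mod_cast hv.1
      have hnr : 4 * (a:ℝ) * n = (2 * a * p - b * q) ^ 2 + 3 * q ^ 2 := by exact_mod_cast hn'
      have hn1 : (1:ℝ) ≤ n := by exact_mod_cast hn
      set β : ℝ := 2 * (a:ℝ) * ((p:ℝ) / q) - b with hβd
      have e : 2 * (a:ℝ) * p - b * q = q * β := by rw [hβd]; field_simp
      rw [e] at hnr
      have h3 : 2 * (q:ℝ) ^ 2 < a := by
        have h4 : 2 * (q:ℝ) ^ 2 * l < a * l := by linarith
        exact lt_of_mul_lt_mul_right h4 hl0.le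
      have h5 : 1 ≤ β ^ 2 := by
        have h6 : 4 * (a:ℝ) ≤ 4 * a * n := by nlinarith
        have h7 : 5 * (q:ℝ) ^ 2 ≤ q ^ 2 * β ^ 2 := by
          rw [mul_pow] at hnr
          linarith
        have h8 : (0:ℝ) < (q:ℝ) ^ 2 := by positivity
        nlinarith
      have h6 : 1 ≤ |β| := by
        rw [← sq_abs] at h5
        nlinarith [abs_nonneg β]
      linarith
  push Not at hlow
  by_cases hbig : 100 ≤ (q:ℝ) ^ 2 * l * ρ
  · -- deep
    have hq2 : 2 ≤ q := by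
      by_contra hcon
      have : q = 1 := by omega
      rw [this] at hbig
      norm_num at hbig
      nlinarith
    obtain ⟨p1, q1, σ, hdet, hσ, hq1, hq1q, hq1l⟩ := small_nbr hl0 hq2 h1 h2 hmin
    have hq1r : (0:ℝ) < q1 := by exact_mod_cast hq1
    by_cases hbig2 : C ≤ (q:ℝ) ^ 2 * l
    · -- the excursion is there already
      apply hdone
      intro y hy1 hy2
      refine ⟨p1, q1, hq1, ?_⟩
      have hdr : (p1:ℝ) * q - p * q1 = σ := by exact_mod_cast hdet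
      have e : (q1:ℝ) * y - p1 = q1 * (y - p / q) - σ / q := by
        rw [← hdr]; field_simp; ring
      have h3 : |y - (p:ℝ) / q| ≤ l := by
        rw [abs_le]
        constructor <;> linarith
      have hσa : |(σ:ℝ)| = 1 := by
        have : ((σ:ℝ)) ^ 2 = 1 := by exact_mod_cast hσ
        have h7 : |(σ:ℝ)| ^ 2 = 1 := by rw [sq_abs]; exact this
        have h8 := abs_nonneg (σ:ℝ)
        nlinarith
      have h4 : |(q1:ℝ) * y - p1| ≤ q1 * l + 1 / q := by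
        rw [e]
        refine (abs_sub _ _).trans ?_
        rw [abs_mul, abs_of_pos hq1r, abs_div, hσa, abs_of_pos hqr]
        gcongr
      have h5 : (q1:ℝ) * |q1 * y - p1| ≤ q1 * (q1 * l + 1 / q) :=
        mul_le_mul_of_nonneg_left h4 hq1r.le
      refine h5.trans ?_
      have hCε : 20 ≤ (q:ℝ) ^ 2 * l * ε := by
        have h6 : 20 / ε ≤ (q:ℝ) ^ 2 * l := (le_max_left _ _).trans hbig2
        rwa [div_le_iff₀ hε] at h6
      -- q1 q l < 4
      have h7 : (q:ℝ) ^ 2 * l * (q1 * (q1 * l + 1 / q)) ≤ 20 := by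
        have e2 : (q:ℝ) ^ 2 * l * (q1 * (q1 * l + 1 / q)) = (q1 * q * l) ^ 2 + q1 * q * l := by
          field_simp
        rw [e2]
        have h8 : 0 < (q1:ℝ) * q * l := by positivity
        nlinarith
      have h9 : (q:ℝ) ^ 2 * l * (q1 * (q1 * l + 1 / q)) ≤ q ^ 2 * l * ε := h7.trans hCε
      exact le_of_mul_le_mul_left h9 (by positivity)
    · push Not at hbig2
      apply hgood p q hq hx1 (by linarith) hsmall.le (by linarith)
      intro a b hv hal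
      exact hκ'1.trans (deep hρ0 hρ1 hl0 hq hdet hσ hq1 hq1l hbig hv hal)
  · push Not at hbig
    obtain ⟨p', q', hdet, hq'0, hq'q⟩ := nbr hq h1 h2 hmin
    obtain ⟨P, Q, k1, k2, k3, k4, k5⟩ := hmid l hl0 p q p' q' hq hdet hq'0 hq'q hlow hbig.le
    have hQ : 0 < Q := by omega
    have hQr : (0:ℝ) < Q := by exact_mod_cast hQ
    have hqQ : (q:ℝ) ≤ Q := by exact_mod_cast k1
    have hQM : (Q:ℝ) ≤ q * M := by exact_mod_cast k2
    refine hgood P Q hQ (hx1.trans k3) (by linarith) ?_ ?_ k5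
    · refine hsmall.le.trans ?_
      gcongr
    · have h3 : (Q:ℝ) ^ 2 * l ≤ (q * M) ^ 2 * l := by gcongr
      have h4 : (q:ℝ) ^ 2 * l ≤ C := by
        refine le_trans ?_ (le_max_right _ _)
        rw [le_div_iff₀ hρ0]
        exact hbig.le
      calc (Q:ℝ) ^ 2 * l ≤ (q * M) ^ 2 * l := h3
        _ = (q:ℝ) ^ 2 * l * (M:ℝ) ^ 2 := by ring
        _ ≤ C * (M:ℝ) ^ 2 := mul_le_mul_of_nonneg_right h4 (by positivity)
        _ ≤ C' := by rw [hC']; nlinarith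

end Run7.h952.DI
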