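import Pool.Agent.Run7.h952.DI.Tree

set_option autoImplicit false

/-!
# Euclidean Dirichlet improvable numbers which are not badly approximable: full dimension
-/

namespace Run7.h952.DI.FullDimension

/-- The critical radius `(2 / √3)^(1/2)` of the Euclidean norm of the plane. -/
noncomputable def r2 : ℝ := Real.sqrt (2 / Real.sqrt 3)

/-- The Euclidean Dirichlet improvable numbers: there is `c < 1` such that for all large `t > 0`
there are integers `(p, q) ≠ (0, 0)` with `(t (p + q x) / c)^2 + (q / t)^2 ≤ r2^2`. -/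
def DI2 : Set ℝ :=
  {x | ∃ c : ℝ, 0 < c ∧ c < 1 ∧ ∃ T : ℝ, ∀ t : ℝ, T < t → 0 < t →
    ∃ p q : ℤ, (p, q) ≠ (0, 0) ∧ (t * (p + q * x) / c) ^ 2 + (q / t) ^ 2 ≤ r2 ^ 2}

/-- The badly approximable numbers. -/
def BA : Set ℝ :=
  {x | ∃ ε : ℝ, 0 < ε ∧ ∀ p q : ℤ, q ≠ 0 → ε ≤ |q * x - p| * |(q:ℝ)|}

/-- The Euclidean Dirichlet improvable numbers which are not badly approximable have full
Hausdorff dimension. -/
theorem result : dimH (DI2 \ BA) = 1 := Run7.h952.DI.dim_one

end Run7.h952.DI.FullDimension
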