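import Pool.Agent.Run7.h952.DI.Ctr

set_option autoImplicit false

/-!
# From avoided centres to Euclidean Dirichlet improvability
-/

namespace Run7.h952.DI

open UpperHalfPlane ModularGroup
open scoped MatrixGroups Modular

/-- The critical radius `(2 / √3)^(1/2)` of the Euclidean norm of the plane. -/
noncomputable def r2 : ℝ := Real.sqrt (2 / Real.sqrt 3)

/-- The Euclidean Dirichlet improvable numbers. -/
def DI2 : Set ℝ :=
  {x | ∃ c : ℝ, 0 < c ∧ c < 1 ∧ ∃ T : ℝ, ∀ t : ℝ, T < t → 0 < t →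
    ∃ p q : ℤ, (p, q) ≠ (0, 0) ∧ (t * (p + q * x) / c) ^ 2 + (q / t) ^ 2 ≤ r2 ^ 2}

/-- The badly approximable numbers. -/
def BA : Set ℝ :=
  {x | ∃ ε : ℝ, 0 < ε ∧ ∀ p q : ℤ, q ≠ 0 → ε ≤ |q * x - p| * |(q:ℝ)|}

lemma r2_sq : r2 ^ 2 = 2 / Real.sqrt 3 := by
  unfold r2
  rw [Real.sq_sqrt (by positivity)]

lemma form_val {A B C D s : ℤ} (hdet : A * D - B * C = 1) (hs : s ^ 2 = 1) :
    Val (A ^ 2 - s * (A * C) + C ^ 2) (s * (A * D + B * C) - 2 * (C * D + A * B)) := by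
  refine ⟨?_, D ^ 2 - s * (B * D) + B ^ 2, ?_⟩
  · have h4 : 4 * (A ^ 2 - s * (A * C) + C ^ 2) = (2 * A - s * C) ^ 2 + 3 * C ^ 2 := by
      linear_combination (-C ^ 2) * hs
    by_cases hC : C = 0
    · subst hC
      have hA : A ≠ 0 := by
        rintro rfl
        simp at hdet
      have : 0 < A ^ 2 := by positivity
      nlinarith
    · have : 0 < C ^ 2 := by positivity
      nlinarith [sq_nonneg (2 * A - s * C)]
  · linear_combination (-3 * (A * D - B * C + 1)) * hdet + ((A * D + B * C) ^ 2 - 4 * A * B * C * D) * hs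

theorem di2_of_good {x κ : ℝ} (hκ : 0 < κ)
    (h : ∀ a b : ℤ, Val a b → κ ≤ |2 * a * x - b|) : x ∈ DI2 := by
  set e : ℝ := min κ 1 / 40 with he
  have he0 : 0 < e := by
    have : 0 < min κ 1 := lt_min hκ one_pos
    positivity
  have he1 : e ≤ 1 / 40 := by
    have := min_le_right κ 1
    rw [he]
    linarith
  have heκ : 40 * e ≤ κ := by
    have := min_le_left κ 1
    rw [he]
    linarith
  set c : ℝ := 1 / (1 + e) with hc
  have hc0 : 0 < c := by positivity
  have hc1 : c < 1 := by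
    rw [hc, div_lt_one (by positivity)]
    linarith
  have hci : 1 / c = 1 + e := by rw [hc, one_div_one_div]
  refine ⟨c, hc0, hc1, 0, fun t ht _ => ?_⟩
  by_contra hcon
  push Not at hcon
  set y : ℝ := c / t ^ 2 with hy
  have hy0 : 0 < y := by positivity
  let z : ℍ := ⟨⟨x, y⟩, hy0⟩
  obtain ⟨g, hg⟩ := exists_smul_mem_fd z
  set A : ℤ := g 0 0 with hA
  set B : ℤ := g 0 1 with hB
  set C : ℤ := g 1 0 with hC
  set D : ℤ := g 1 1 with hD
  have hdet : A * D - B * C = 1 := by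
    have := g.det_coe
    rw [Matrix.det_fin_two] at this
    exact this
  set w : ℍ := g • z with hw
  have hzim : z.im = y := rfl
  have hzre : z.re = x := rfl
  have him : w.im = y / Complex.normSq ((C:ℂ) * z + D) := by
    rw [hw, ModularGroup.im_smul_eq_div_normSq, ModularGroup.denom_apply, hzim]
  have hwc : (w : ℂ) = ((A:ℂ) * z + B) / (C * z + D) := by
    rw [hw, coe_specialLinearGroup_apply]
    simp [hA, hB, hC, hD]
  set v : ℝ := w.im with hv
  set u : ℝ := w.re with hu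
  have hv0 : 0 < v := w.im_pos
  have hne : (C:ℂ) * z + D ≠ 0 := by
    intro h0
    rw [h0] at him
    simp at him
    linarith
  have hN : Complex.normSq ((C:ℂ) * z + D) = (C * x + D) ^ 2 + (C * y) ^ 2 := by
    have e1 : ((C:ℂ) * z + D).re = C * x + D := by
      simp [← hzre]
    have e2 : ((C:ℂ) * z + D).im = C * y := by
      simp [← hzim]
    rw [Complex.normSq_apply, e1, e2]
    ring
  have hNpos : 0 < Complex.normSq ((C:ℂ) * z + D) := Complex.normSq_pos.2 hne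
  have hcd : (D, C) ≠ (0, 0) := by
    intro h0
    rw [Prod.mk.injEq] at h0
    rw [h0.1, h0.2] at hdet
    simp at hdet
  have h1 := hcon D C hcd
  have hs3 : 0 < Real.sqrt 3 := by positivity
  have hs3sq : Real.sqrt 3 ^ 2 = 3 := Real.sq_sqrt (by norm_num)
  have hvlt : v < Real.sqrt 3 / 2 * (1 + e) := by
    have e1 : (t * (D + C * x) / c) ^ 2 + (C / t) ^ 2 = 1 / (c * v) := by
      have e2 : (t * (D + C * x) / c) ^ 2 + (C / t) ^ 2 =
          (t ^ 2 / c ^ 2) * Complex.normSq ((C:ℂ) * z + D) := by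
        rw [hN, hy]
        field_simp
        ring
      rw [e2, him, hy]
      field_simp
    rw [r2_sq, e1, lt_div_iff₀ (by positivity)] at h1
    have h2 : c * v < Real.sqrt 3 / 2 := by
      have h3 : 2 / Real.sqrt 3 * (c * v) * (Real.sqrt 3 / 2) < 1 * (Real.sqrt 3 / 2) :=
        mul_lt_mul_of_pos_right h1 (by positivity)
      have h4 : 2 / Real.sqrt 3 * (c * v) * (Real.sqrt 3 / 2) = c * v := by field_simp
      linarith
    have h5 : v = c * v * (1 + e) := by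
      rw [← hci]
      field_simp
    rw [h5]
    exact mul_lt_mul_of_pos_right h2 (by positivity)
  obtain ⟨hfd1, hfd2⟩ := hg
  have hn1 : 1 ≤ u ^ 2 + v ^ 2 := by
    have : Complex.normSq (w : ℂ) = u ^ 2 + v ^ 2 := by
      rw [Complex.normSq_apply]
      simp only [UpperHalfPlane.coe_re, UpperHalfPlane.coe_im]
      ring
    rw [← this]
    exact hfd1
  have hu2 : |u| ≤ 1 / 2 := hfd2
  set m : ℝ := |u| with hm
  have hm0 : 0 ≤ m := abs_nonneg _
  have hmu : m ^ 2 = u ^ 2 := sq_abs u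
  have hv2 : v ^ 2 < 3 / 4 * (1 + e) ^ 2 := by
    have h3 : v ^ 2 < (Real.sqrt 3 / 2 * (1 + e)) ^ 2 :=
      pow_lt_pow_left₀ hvlt hv0.le two_ne_zero
    have h4 : (Real.sqrt 3 / 2 * (1 + e)) ^ 2 = Real.sqrt 3 ^ 2 / 4 * (1 + e) ^ 2 := by ring
    rw [h4, hs3sq] at h3
    exact h3
  have hm4 : 1 / 2 - m < 4 * e := by
    have h3 : (1 / 2 - m) * (1 / 2 + m) < 2 * e := by nlinarith
    nlinarith
  have hvge : Real.sqrt 3 / 2 ≤ v := by
    have h3 : (Real.sqrt 3 / 2) ^ 2 ≤ v ^ 2 := by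
      have : (Real.sqrt 3 / 2) ^ 2 = Real.sqrt 3 ^ 2 / 4 := by ring
      rw [this, hs3sq]
      nlinarith
    exact (pow_le_pow_iff_left₀ (by positivity) hv0.le two_ne_zero).1 h3
  have hs3lt : Real.sqrt 3 < 2 := by nlinarith
  have hs3gt : 8 / 5 < Real.sqrt 3 := by nlinarith
  have hvle : v - Real.sqrt 3 / 2 ≤ e := by nlinarith
  obtain ⟨s, hs, hsu⟩ : ∃ s : ℤ, s ^ 2 = 1 ∧ |u - s / 2| = 1 / 2 - m := by
    rcases le_total 0 u with h0 | h0
    · refine ⟨1, by norm_num, ?_⟩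
      have hmu' : m = u := abs_of_nonneg h0
      rw [abs_of_nonpos (by push_cast; linarith)]
      push_cast
      linarith
    · refine ⟨-1, by norm_num, ?_⟩
      have hmu' : m = -u := abs_of_nonpos h0
      rw [abs_of_nonneg (by push_cast; linarith)]
      push_cast
      linarith
  set ρ : ℂ := ⟨s / 2, Real.sqrt 3 / 2⟩ with hρ
  have hwρ : ‖(w:ℂ) - ρ‖ ≤ 5 * e := by
    have e1 : ((w:ℂ) - ρ).re = u - s / 2 := by
      rw [Complex.sub_re, UpperHalfPlane.coe_re]
    have e2 : ((w:ℂ) - ρ).im = v - Real.sqrt 3 / 2 := by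
      rw [Complex.sub_im, UpperHalfPlane.coe_im]
    have h3 := Complex.norm_le_abs_re_add_abs_im ((w:ℂ) - ρ)
    rw [e1, e2, hsu, abs_of_nonneg (by linarith : (0:ℝ) ≤ v - Real.sqrt 3 / 2)] at h3
    linarith
  set α : ℂ := A - C * w with hα
  set β : ℂ := A - C * ρ with hβ
  have hαz : α * ((C:ℂ) * z + D) = 1 := by
    have e1 : (w:ℂ) * ((C:ℂ) * z + D) = A * z + B := by
      rw [hwc, div_mul_cancel₀ _ hne]
    have e2 : (A:ℂ) * D - B * C = 1 := by exact_mod_cast hdet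
    rw [hα]
    linear_combination (-(C:ℂ)) * e1 + e2
  have hα0 : α ≠ 0 := by
    intro h0
    rw [h0, zero_mul] at hαz
    exact zero_ne_one hαz
  have hβα : β = α + C * ((w:ℂ) - ρ) := by rw [hβ, hα]; ring
  have hCα : |(C:ℝ)| ≤ 5 / 4 * ‖α‖ := by
    have h3 : |α.im| ≤ ‖α‖ := Complex.abs_im_le_norm α
    have h4 : α.im = -(C * v) := by
      rw [hα]
      simp [hv]
    rw [h4, abs_neg, abs_mul, abs_of_pos hv0] at h3
    have h5 : |(C:ℝ)| * (4 / 5) ≤ |(C:ℝ)| * v :=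
      mul_le_mul_of_nonneg_left (by linarith) (abs_nonneg _)
    linarith
  have hβn : ‖β‖ ≤ 6 / 5 * ‖α‖ := by
    rw [hβα]
    have h3 : ‖(C:ℂ) * ((w:ℂ) - ρ)‖ ≤ 5 / 4 * ‖α‖ * (1 / 8) := by
      rw [norm_mul, Complex.norm_intCast]
      apply mul_le_mul hCα (by linarith) (norm_nonneg _) (by positivity)
    have h4 := norm_add_le α ((C:ℂ) * ((w:ℂ) - ρ))
    have h5 := norm_nonneg α
    linarith
  set a : ℤ := A ^ 2 - s * (A * C) + C ^ 2 with ha
  set b : ℤ := s * (A * D + B * C) - 2 * (C * D + A * B) with hb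
  have hval : Val a b := form_val hdet hs
  have hsr : ((s:ℝ)) ^ 2 = 1 := by exact_mod_cast hs
  have hββ : β * (starRingEnd ℂ) β = a := by
    rw [Complex.mul_conj]
    have e1 : β.re = A - C * (s / 2) := by
      rw [hβ, hρ]; simp
    have e2 : β.im = -(C * (Real.sqrt 3 / 2)) := by
      rw [hβ, hρ]; simp
    have e3 : Complex.normSq β = (a:ℝ) := by
      rw [Complex.normSq_apply, e1, e2, ha]
      push_cast
      linear_combination (C:ℝ) ^ 2 / 4 * hsr + (C:ℝ) ^ 2 / 4 * hs3sq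
    rw [e3]
    norm_cast
  have hre : (((D:ℂ) * ρ - B) * (starRingEnd ℂ) β).re = b / 2 := by
    rw [hβ, hρ, hb]
    simp
    linear_combination (-(C:ℝ) * D / 4) * hsr - ((C:ℝ) * D / 4) * hs3sq
  have hkey : (a:ℂ) * z - ((D:ℂ) * ρ - B) * (starRingEnd ℂ) β =
      (starRingEnd ℂ) β * ((w:ℂ) - ρ) / α := by
    rw [eq_div_iff hα0, ← hββ]
    generalize (starRingEnd ℂ) β = cb
    have e1 : (w:ℂ) * ((C:ℂ) * z + D) = A * z + B := by
      rw [hwc, div_mul_cancel₀ _ hne]
    have e2 : (A:ℂ) * D - B * C = 1 := by exact_mod_cast hdet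
    rw [hα, hβ]
    linear_combination (-cb * (A - C * ρ)) * e1 + cb * ((w:ℂ) - ρ) * e2
  have hfin : |2 * a * x - b| ≤ 12 * e := by
    have h3 : ((a:ℂ) * z - ((D:ℂ) * ρ - B) * (starRingEnd ℂ) β).re = a * x - b / 2 := by
      rw [Complex.sub_re, hre]
      simp [← hzre]
    have h4 : |a * x - b / 2| ≤ ‖β‖ * (5 * e) / ‖α‖ := by
      rw [← h3, hkey]
      refine (Complex.abs_re_le_norm _).trans ?_
      rw [norm_div, norm_mul, Complex.norm_conj]
      gcongr
    have h5 : ‖β‖ * (5 * e) / ‖α‖ ≤ 6 * e := by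
      rw [div_le_iff₀ (norm_pos_iff.2 hα0)]
      nlinarith [norm_nonneg α, norm_nonneg β]
    have h6 : 2 * (a:ℝ) * x - b = 2 * (a * x - b / 2) := by ring
    rw [h6, abs_mul, abs_two]
    linarith
  have := h a b hval
  linarith

end Run7.h952.DI
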