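import Pool.Agent.Run7.h952.DI.Ctr

set_option autoImplicit false

/-!
# One step of the Cantor construction
-/

namespace Run7.h952.DI

/-- All centres `b / (2 a)` with `a 2^r ≤ 2^(r N)` are far from the interval of length
`2^(-r N)` which starts at `x`. -/
def Good (r : ℕ) (κ : ℝ) (N : ℕ) (x : ℝ) : Prop :=
  ∀ a b : ℤ, Val a b → (a:ℝ) * 2 ^ r ≤ 2 ^ (r * N) →
    ∀ y : ℝ, x ≤ y → y ≤ x + (1 / 2) ^ (r * N) → κ ≤ |2 * a * y - b|

lemma good_zero (r : ℕ) (hr : 1 ≤ r) (κ x : ℝ) : Good r κ 0 x := by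
  intro a b h h1
  exfalso
  have ha : (1:ℝ) ≤ a := by exact_mod_cast h.1
  have h2 : (2:ℝ) ≤ 2 ^ r := by
    calc (2:ℝ) = 2 ^ 1 := by norm_num
      _ ≤ 2 ^ r := pow_le_pow_right₀ (by norm_num) hr
  simp at h1
  nlinarith

lemma clog_le {m m' : ℕ} (hm : 0 < m) (h : Nat.clog 2 m = Nat.clog 2 m') : m' ≤ 2 * m := by
  have h1 : m' ≤ 2 ^ Nat.clog 2 m' := Nat.le_pow_clog (by norm_num) _
  rw [← h] at h1
  rcases Nat.lt_or_ge 1 m with h2 | h2
  · have h3 : 2 ^ (Nat.clog 2 m).pred < m := Nat.pow_pred_clog_lt_self (by norm_num) h2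
    have h4 : 0 < Nat.clog 2 m := Nat.clog_pos (by norm_num) h2
    have h5 : 2 ^ Nat.clog 2 m = 2 * 2 ^ (Nat.clog 2 m).pred := by
      rw [← pow_succ', Nat.pred_eq_sub_one, Nat.sub_add_cancel h4]
    omega
  · have h3 : m = 1 := by omega
    subst h3
    simp at h1
    omega

theorem bad_card {r : ℕ} (hr : 1 ≤ r) {κ : ℝ} (hκ : κ ≤ (1 / 2) ^ (2 * r)) {N : ℕ} {x : ℝ}
    (hx : Good r κ N x) (Bd : Finset (Fin (2 ^ (r - 1))))
    (hBd : ∀ j ∈ Bd, ¬ Good r κ (N + 1) (x + 2 * (j:ℕ) * (1 / 2) ^ (r * (N + 1)))) :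
    Bd.card ≤ (r + 1) * 2 := by
  classical
  set s : ℝ := (1 / 2) ^ (r * (N + 1)) with hs
  set l : ℝ := (1 / 2) ^ (r * N) with hl
  have hs0 : 0 < s := by positivity
  have hl0 : 0 < l := by positivity
  have hls : l = 2 ^ r * s := by
    rw [hs, hl, mul_add, pow_add, mul_one]
    have : (2:ℝ) ^ r * ((1 / 2) ^ (r * N) * (1 / 2) ^ r) = (2 * (1 / 2)) ^ r * (1 / 2) ^ (r * N) := by
      rw [mul_pow]; ring
    rw [this]
    norm_num
  have h2r : (2:ℝ) ≤ 2 ^ r := by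
    calc (2:ℝ) = 2 ^ 1 := by norm_num
      _ ≤ 2 ^ r := pow_le_pow_right₀ (by norm_num) hr
  have hsl : s ≤ l / 2 := by rw [hls]; nlinarith
  have hj : ∀ j : Fin (2 ^ (r - 1)), 2 * ((j:ℕ):ℝ) * s + 2 * s ≤ l := by
    intro j
    have h1 : (j:ℕ) + 1 ≤ 2 ^ (r - 1) := j.2
    have h2 : 2 * ((j:ℕ) + 1) ≤ 2 ^ r := by
      calc 2 * ((j:ℕ) + 1) ≤ 2 * 2 ^ (r - 1) := by omega
        _ = 2 ^ r := by rw [← pow_succ', Nat.sub_add_cancel hr]
    have h3 : 2 * (((j:ℕ):ℝ) + 1) ≤ 2 ^ r := by exact_mod_cast h2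
    rw [hls]
    nlinarith
  have hw : ∀ j ∈ Bd, ∃ a b : ℤ, ∃ y : ℝ, Val a b ∧ (a:ℝ) * l ≤ 1 ∧ 1 < (a:ℝ) * 2 ^ r * l ∧
      x + 2 * (j:ℕ) * s ≤ y ∧ y ≤ x + 2 * (j:ℕ) * s + s ∧ |(b:ℝ) / (2 * a) - y| < s / 2 := by
    intro j hjB
    have h1 := hBd j hjB
    unfold Good at h1
    push Not at h1
    obtain ⟨a, b, hv, ha, y, hy1, hy2, hlt⟩ := h1
    have h2N : (2:ℝ) ^ (r * N) * l = 1 := by
      rw [hl, ← mul_pow]; norm_num
    have ha0 : (0:ℝ) < a := by exact_mod_cast hv.1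
    have ha1 : (a:ℝ) * l ≤ 1 := by
      rw [mul_add, mul_one, pow_add] at ha
      have h3 : (a:ℝ) ≤ 2 ^ (r * N) := le_of_mul_le_mul_right ha (by positivity)
      calc (a:ℝ) * l ≤ 2 ^ (r * N) * l := mul_le_mul_of_nonneg_right h3 hl0.le
        _ = 1 := h2N
    have ha2 : 1 < (a:ℝ) * 2 ^ r * l := by
      by_contra hcon
      push Not at hcon
      have h3 : (a:ℝ) * 2 ^ r ≤ 2 ^ (r * N) := by
        have h4 : (a:ℝ) * 2 ^ r * l * 2 ^ (r * N) ≤ 1 * 2 ^ (r * N) :=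
          mul_le_mul_of_nonneg_right hcon (by positivity)
        have h5 : (a:ℝ) * 2 ^ r * l * 2 ^ (r * N) = (a:ℝ) * 2 ^ r * (2 ^ (r * N) * l) := by ring
        rw [h5, h2N] at h4
        linarith
      have h6 := hx a b hv h3 y (by
        have : 0 ≤ 2 * ((j:ℕ):ℝ) * s := by positivity
        linarith) (by
        have := hj j
        rw [← hl]
        rw [← hs] at hy2
        linarith)
      linarith
    refine ⟨a, b, y, hv, ha1, ha2, hy1, hy2, ?_⟩
    have e1 : (b:ℝ) / (2 * a) - y = -(2 * a * y - b) / (2 * a) := by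
      field_simp
      ring
    rw [e1, abs_div, abs_neg, abs_of_pos (by positivity : (0:ℝ) < 2 * a), div_lt_iff₀ (by positivity)]
    have h7 : (1 / 2 : ℝ) ^ (2 * r) * 2 ^ r * l = s := by
      rw [hls, two_mul, pow_add]
      have : (1 / 2 : ℝ) ^ r * (1 / 2) ^ r * 2 ^ r * (2 ^ r * s) =
        ((1 / 2) * 2) ^ r * ((1 / 2) * 2) ^ r * s := by
        rw [mul_pow]; ring
      rw [this]; norm_num
    calc |2 * a * y - b| < κ := hlt
      _ ≤ (1 / 2) ^ (2 * r) := hκ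
      _ = (1 / 2) ^ (2 * r) * 1 := by ring
      _ ≤ (1 / 2) ^ (2 * r) * ((a:ℝ) * 2 ^ r * l) :=
        mul_le_mul_of_nonneg_left ha2.le (by positivity)
      _ = a * ((1 / 2 : ℝ) ^ (2 * r) * 2 ^ r * l) := by ring
      _ = s / 2 * (2 * a) := by rw [h7]; ring
  choose! A B Y hV hA1 hA2 hY1 hY2 hC using hw
  have hcard : ((Finset.Icc (r * N - r) (r * N)) ×ˢ (Finset.univ : Finset Bool)).card ≤
      (r + 1) * 2 := by
    rw [Finset.card_product, Nat.card_Icc]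
    simp only [Finset.card_univ, Fintype.card_bool]
    apply Nat.mul_le_mul_right
    omega
  refine le_trans ?_ hcard
  apply Finset.card_le_card_of_injOn
    (fun j => (Nat.clog 2 (A j).toNat, decide ((B j:ℝ) / (2 * A j) < x + l / 2)))
  · intro j hjB
    have hv := hV j hjB
    have h1 := hA1 j hjB
    have h2 := hA2 j hjB
    have hAn : ((A j).toNat : ℤ) = A j := Int.toNat_of_nonneg hv.1.le
    have hAr : (((A j).toNat : ℕ) : ℝ) = A j := by exact_mod_cast hAn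
    have h2N : (2:ℝ) ^ (r * N) * l = 1 := by
      rw [hl, ← mul_pow]; norm_num
    have h3 : (A j).toNat ≤ 2 ^ (r * N) := by
      have : (((A j).toNat : ℕ) : ℝ) ≤ 2 ^ (r * N) := by
        rw [hAr]
        by_contra hcon
        push Not at hcon
        have := mul_lt_mul_of_pos_right hcon hl0
        linarith
      exact_mod_cast this
    have h4 : 2 ^ (r * N) ≤ 2 ^ (Nat.clog 2 (A j).toNat + r) := by
      have h5 : (2:ℝ) ^ (r * N) ≤ ((A j).toNat : ℝ) * 2 ^ r := by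
        rw [hAr]
        by_contra hcon
        push Not at hcon
        have := mul_lt_mul_of_pos_right hcon hl0
        linarith
      have h6 : 2 ^ (r * N) ≤ (A j).toNat * 2 ^ r := by exact_mod_cast h5
      rw [pow_add]
      exact h6.trans (Nat.mul_le_mul_right _ (Nat.le_pow_clog (by norm_num) _))
    have h7 : r * N ≤ Nat.clog 2 (A j).toNat + r := (Nat.pow_le_pow_iff_right (by norm_num)).1 h4
    have h8 : Nat.clog 2 (A j).toNat ≤ r * N := Nat.clog_le_of_le_pow h3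
    simp only [Finset.coe_product, Set.mem_prod, Finset.mem_coe, Finset.mem_Icc, Finset.mem_univ,
      and_true]
    omega
  · intro j hjB k hkB hjk
    simp only [Prod.mk.injEq] at hjk
    obtain ⟨hclog, hside⟩ := hjk
    have hvj := hV j hjB
    have hvk := hV k hkB
    have hpj : 0 < (A j).toNat := by have := hvj.1; omega
    have hpk : 0 < (A k).toNat := by have := hvk.1; omega
    have c1 := clog_le hpj hclog
    have c2 := clog_le hpk hclog.symm
    have cj := abs_lt.1 (hC j hjB)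
    have ck := abs_lt.1 (hC k hkB)
    have hYj1 := hY1 j hjB
    have hYj2 := hY2 j hjB
    have hYk1 := hY1 k hkB
    have hYk2 := hY2 k hkB
    have hj1 := hj j
    have hk1 := hj k
    have hj0 : 0 ≤ 2 * ((j:ℕ):ℝ) * s := by positivity
    have hk0 : 0 ≤ 2 * ((k:ℕ):ℝ) * s := by positivity
    have hclose : |(B j:ℝ) / (2 * A j) - B k / (2 * A k)| < 3 / 4 * l := by
      rw [abs_lt]
      by_cases hc1 : (B j:ℝ) / (2 * A j) < x + l / 2
      · have hc2 : (B k:ℝ) / (2 * A k) < x + l / 2 := by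
          rw [decide_eq_decide] at hside
          exact hside.1 hc1
        constructor <;> linarith
      · have hc2 : ¬ (B k:ℝ) / (2 * A k) < x + l / 2 := by
          rw [decide_eq_decide] at hside
          exact fun h => hc1 (hside.2 h)
        push Not at hc1 hc2
        constructor <;> linarith
    have hAB := sep hvj hvk (by omega) (by omega) hl0 (hA1 j hjB) (hA1 k hkB) hclose
    have hcc : (B j:ℝ) / (2 * A j) = B k / (2 * A k) := by rw [hAB.1, hAB.2]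
    rw [hcc] at cj
    by_contra hne
    rcases lt_or_gt_of_ne (fun h => hne (Fin.ext h) : (j:ℕ) ≠ k) with h | h
    · have h3 : ((j:ℕ):ℝ) + 1 ≤ (k:ℕ) := by exact_mod_cast h
      nlinarith
    · have h3 : ((k:ℕ):ℝ) + 1 ≤ (j:ℕ) := by exact_mod_cast h
      nlinarith

lemma pow_big : ∀ r : ℕ, 6 ≤ r → 2 ^ (r - 2) + (r + 1) * 2 ≤ 2 ^ (r - 1) := by
  intro r hr
  induction r, hr using Nat.le_induction with
  | base => norm_num
  | succ n hn ih =>
    have e1 : n + 1 - 1 = (n - 1) + 1 := by omega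
    have e2 : n + 1 - 2 = (n - 2) + 1 := by omega
    rw [e1, e2, pow_succ, pow_succ]
    have : 2 ≤ n - 2 := by omega
    omega

/-- The good children of a good interval. -/
theorem step {r : ℕ} (hr : 6 ≤ r) {κ : ℝ} (hκ : κ ≤ (1 / 2) ^ (2 * r)) {N : ℕ} {x : ℝ}
    (hx : Good r κ N x) : ∃ f : Fin (2 ^ (r - 2)) → ℝ,
      (∀ i, Good r κ (N + 1) (f i) ∧ x ≤ f i ∧
        f i + (1 / 2) ^ (r * (N + 1)) ≤ x + (1 / 2) ^ (r * N)) ∧
      ∀ i j, i ≠ j → 2 * (1 / 2) ^ (r * (N + 1)) ≤ |f i - f j| := by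
  classical
  set s : ℝ := (1 / 2) ^ (r * (N + 1)) with hs
  have hs0 : 0 < s := by positivity
  set G : Finset (Fin (2 ^ (r - 1))) :=
    Finset.univ.filter (fun j => Good r κ (N + 1) (x + 2 * (j:ℕ) * s)) with hG
  have hbc := bad_card (by omega) hκ hx
    (Finset.univ.filter (fun j => ¬ Good r κ (N + 1) (x + 2 * (j:ℕ) * s)))
    (fun j hj => (Finset.mem_filter.1 hj).2)
  have hsum := Finset.card_filter_add_card_filter_not (s := (Finset.univ : Finset (Fin (2 ^ (r - 1)))))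
    (fun j => Good r κ (N + 1) (x + 2 * (j:ℕ) * s))
  rw [Finset.card_univ, Fintype.card_fin] at hsum
  have hGc : 2 ^ (r - 2) ≤ G.card := by
    have h0 := pow_big r hr
    rw [← hG] at hsum
    omega
  refine ⟨fun i => x + 2 * ((G.orderEmbOfCardLe hGc i : Fin (2 ^ (r - 1))) : ℕ) * s,
    fun i => ⟨?_, ?_, ?_⟩, fun i j hij => ?_⟩
  · have := G.orderEmbOfCardLe_mem hGc i
    exact (Finset.mem_filter.1 this).2
  · have : 0 ≤ 2 * (((G.orderEmbOfCardLe hGc i : Fin (2 ^ (r - 1))) : ℕ) : ℝ) * s := by positivity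
    linarith
  · have h1 : ((G.orderEmbOfCardLe hGc i : Fin (2 ^ (r - 1))) : ℕ) + 1 ≤ 2 ^ (r - 1) :=
      (G.orderEmbOfCardLe hGc i).2
    have h2 : 2 * (((G.orderEmbOfCardLe hGc i : Fin (2 ^ (r - 1))) : ℕ) + 1) ≤ 2 ^ r := by
      calc 2 * (((G.orderEmbOfCardLe hGc i : Fin (2 ^ (r - 1))) : ℕ) + 1) ≤ 2 * 2 ^ (r - 1) := by
            omega
        _ = 2 ^ r := by rw [← pow_succ', Nat.sub_add_cancel (by omega)]
    have h3 : 2 * ((((G.orderEmbOfCardLe hGc i : Fin (2 ^ (r - 1))) : ℕ) : ℝ) + 1) ≤ 2 ^ r := by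
      exact_mod_cast h2
    have hls : (1 / 2 : ℝ) ^ (r * N) = 2 ^ r * s := by
      rw [hs, mul_add, pow_add, mul_one]
      have : (2:ℝ) ^ r * ((1 / 2) ^ (r * N) * (1 / 2) ^ r) =
          (2 * (1 / 2)) ^ r * (1 / 2) ^ (r * N) := by
        rw [mul_pow]; ring
      rw [this]
      norm_num
    rw [hls]
    nlinarith
  · have hne : ((G.orderEmbOfCardLe hGc i : Fin (2 ^ (r - 1))) : ℕ) ≠
        ((G.orderEmbOfCardLe hGc j : Fin (2 ^ (r - 1))) : ℕ) := by
      intro h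
      exact hij ((G.orderEmbOfCardLe hGc).injective (Fin.ext h))
    beta_reduce
    generalize ((G.orderEmbOfCardLe hGc i : Fin (2 ^ (r - 1))) : ℕ) = u at hne
    generalize ((G.orderEmbOfCardLe hGc j : Fin (2 ^ (r - 1))) : ℕ) = v at hne
    have e : x + 2 * (u:ℝ) * s - (x + 2 * v * s) = ((u:ℝ) - v) * (2 * s) := by ring
    rw [e, abs_mul, abs_of_pos (by positivity : (0:ℝ) < 2 * s)]
    have h1 : (1:ℝ) ≤ |(u:ℝ) - v| := by
      have h2 : (1:ℤ) ≤ |(u:ℤ) - v| := Int.one_le_abs (by omega)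
      exact_mod_cast h2
    nlinarith

end Run7.h952.DI
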