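import Pool.Agent.Run7.h952.DI.Exc
import Pool.Agent.Run7.h952.DI.Lat
import Pool.Agent.Y754.GD.Dim

set_option autoImplicit false

/-!
# The Cantor set and its dimension
-/

namespace Run7.h952.DI

/-- The schedule: total length of the blocks used so far, number of the next block. -/
def sch (W : ℕ) (Lb : ℕ → ℕ) : ℕ → ℕ × ℕ
  | 0 => (0, 0)
  | n + 1 => if W * ((sch W Lb n).1 + Lb (sch W Lb n).2) ≤ n then
      ((sch W Lb n).1 + Lb (sch W Lb n).2, (sch W Lb n).2 + 1) else sch W Lb n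

lemma sch_le (W : ℕ) (Lb : ℕ → ℕ) (n : ℕ) : W * (sch W Lb n).1 ≤ n := by
  induction n with
  | zero => simp [sch]
  | succ n ih =>
    rw [sch]
    split_ifs with h
    · simp only
      omega
    · omega

lemma sch_hit (W : ℕ) (Lb : ℕ → ℕ) (k : ℕ) : ∃ n, (sch W Lb n).2 = k ∧
    W * ((sch W Lb n).1 + Lb (sch W Lb n).2) ≤ n := by
  have key : ∀ n0 k, (sch W Lb n0).2 = k → ∃ n, (sch W Lb n).2 = k ∧
      W * ((sch W Lb n).1 + Lb (sch W Lb n).2) ≤ n := by
    intro n0 k hk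
    by_contra hcon
    push Not at hcon
    have hst : ∀ d, sch W Lb (n0 + d) = sch W Lb n0 := by
      intro d
      induction d with
      | zero => rfl
      | succ d ih =>
        have h1 := hcon (n0 + d) (by rw [ih]; exact hk)
        have h2 : n0 + (d + 1) = (n0 + d) + 1 := by ring
        rw [h2, sch, if_neg (by omega), ih]
    have h1 := hcon (n0 + W * ((sch W Lb n0).1 + Lb (sch W Lb n0).2)) (by rw [hst]; exact hk)
    rw [hst] at h1
    omega
  induction k with
  | zero => exact key 0 0 rfl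
  | succ k ih =>
    obtain ⟨n, h1, h2⟩ := ih
    apply key (n + 1)
    rw [sch, if_pos h2]
    simp [h1]

section

variable (r : ℕ) (κ : ℝ) (Lb : ℕ → ℕ) (child : ℕ → ℝ → Fin (2 ^ (r - 2)) → ℝ)
  (blk : ℕ → ℕ → ℝ → ℝ)

/-- The level after `n` free digits. -/
def lev (n : ℕ) : ℕ := n + (sch r Lb n).1

/-- The left ends of the intervals. -/
noncomputable def pth (t : ℕ → Fin (2 ^ (r - 2))) : ℕ → ℝ
  | 0 => 0
  | n + 1 => if r * ((sch r Lb n).1 + Lb (sch r Lb n).2) ≤ n then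
      blk (sch r Lb n).2 (lev r Lb n + 1) (child (lev r Lb n) (pth t n) (t n))
      else child (lev r Lb n) (pth t n) (t n)

variable (hr : 6 ≤ r)
  (hchild : ∀ N x, Good r κ N x → (∀ i, Good r κ (N + 1) (child N x i) ∧ x ≤ child N x i ∧
    child N x i + (1 / 2) ^ (r * (N + 1)) ≤ x + (1 / 2) ^ (r * N)) ∧
    ∀ i j, i ≠ j → 2 * (1 / 2) ^ (r * (N + 1)) ≤ |child N x i - child N x j|)
  (hblk : ∀ k N x, Good r κ N x → x ≤ blk k N x ∧
    blk k N x + (1 / 2) ^ (r * (N + Lb k)) ≤ x + (1 / 2) ^ (r * N) ∧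
    Good r κ (N + Lb k) (blk k N x) ∧
    ∀ y : ℝ, blk k N x ≤ y → y ≤ blk k N x + (1 / 2) ^ (r * (N + Lb k)) →
      ∃ p q : ℤ, 0 < q ∧ (q:ℝ) * |q * y - p| ≤ 1 / ((k:ℝ) + 1))

include hchild hblk in
lemma pth_step (t : ℕ → Fin (2 ^ (r - 2))) (n : ℕ)
    (hg : Good r κ (lev r Lb n) (pth r Lb child blk t n)) :
    Good r κ (lev r Lb (n + 1)) (pth r Lb child blk t (n + 1)) ∧
    child (lev r Lb n) (pth r Lb child blk t n) (t n) ≤ pth r Lb child blk t (n + 1) ∧
    pth r Lb child blk t (n + 1) + (1 / 2) ^ (r * lev r Lb (n + 1)) ≤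
      child (lev r Lb n) (pth r Lb child blk t n) (t n) + (1 / 2) ^ (r * (lev r Lb n + 1)) := by
  obtain ⟨h1, -⟩ := hchild _ _ hg
  obtain ⟨g1, g2, g3⟩ := h1 (t n)
  by_cases hc : r * ((sch r Lb n).1 + Lb (sch r Lb n).2) ≤ n
  · have e1 : lev r Lb (n + 1) = lev r Lb n + 1 + Lb (sch r Lb n).2 := by
      unfold lev
      rw [sch, if_pos hc]
      ring
    have e2 : pth r Lb child blk t (n + 1) =
        blk (sch r Lb n).2 (lev r Lb n + 1) (child (lev r Lb n) (pth r Lb child blk t n) (t n)) := by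
      rw [pth, if_pos hc]
    obtain ⟨k1, k2, k3, -⟩ := hblk (sch r Lb n).2 _ _ g1
    rw [e1, e2]
    exact ⟨k3, k1, k2⟩
  · have e1 : lev r Lb (n + 1) = lev r Lb n + 1 := by
      unfold lev
      rw [sch, if_neg hc]
      ring
    have e2 : pth r Lb child blk t (n + 1) =
        child (lev r Lb n) (pth r Lb child blk t n) (t n) := by
      rw [pth, if_neg hc]
    rw [e1, e2]
    exact ⟨g1, le_rfl, le_rfl⟩

include hr hchild hblk

lemma pth_good (t : ℕ → Fin (2 ^ (r - 2))) (n : ℕ) :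
    Good r κ (lev r Lb n) (pth r Lb child blk t n) := by
  induction n with
  | zero =>
    have : lev r Lb 0 = 0 := rfl
    rw [this]
    exact good_zero r (by omega) κ _
  | succ n ih => exact (pth_step r κ Lb child blk hchild hblk t n ih).1

lemma pth_nest (t : ℕ → Fin (2 ^ (r - 2))) (n : ℕ) :
    pth r Lb child blk t n ≤ pth r Lb child blk t (n + 1) ∧
    pth r Lb child blk t (n + 1) + (1 / 2) ^ (r * lev r Lb (n + 1)) ≤
      pth r Lb child blk t n + (1 / 2) ^ (r * lev r Lb n) := by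
  have hg := pth_good r κ Lb child blk hr hchild hblk t n
  obtain ⟨-, h2, h3⟩ := pth_step r κ Lb child blk hchild hblk t n hg
  obtain ⟨h1, -⟩ := hchild _ _ hg
  obtain ⟨g1, g2, g3⟩ := h1 (t n)
  exact ⟨g2.trans h2, h3.trans g3⟩

/-- The point of a sequence of digits lies in all intervals. -/
lemma exists_pt (t : ℕ → Fin (2 ^ (r - 2))) : ∃ y : ℝ, ∀ n, pth r Lb child blk t n ≤ y ∧
    y ≤ pth r Lb child blk t n + (1 / 2) ^ (r * lev r Lb n) := by
  have hn := pth_nest r κ Lb child blk hr hchild hblk t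
  have hmono : Monotone (pth r Lb child blk t) := monotone_nat_of_le_succ fun n => (hn n).1
  have hanti : Antitone (fun n => pth r Lb child blk t n + (1 / 2 : ℝ) ^ (r * lev r Lb n)) :=
    antitone_nat_of_succ_le fun n => (hn n).2
  have hle : ∀ m n, pth r Lb child blk t m ≤ pth r Lb child blk t n + (1 / 2) ^ (r * lev r Lb n) := by
    intro m n
    have h1 : pth r Lb child blk t m ≤ pth r Lb child blk t (max m n) := hmono (le_max_left _ _)
    have h2 := hanti (le_max_right m n)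
    have h3 : (0:ℝ) < (1 / 2) ^ (r * lev r Lb (max m n)) := by positivity
    simp only at h2
    linarith
  refine ⟨⨆ n, pth r Lb child blk t n, fun n => ⟨?_, ?_⟩⟩
  · exact le_ciSup ⟨_, by rintro _ ⟨m, rfl⟩; exact hle m 0⟩ n
  · exact ciSup_le fun m => hle m n

theorem exists_cantor : ∃ pt : (ℕ → Fin (2 ^ (r - 2))) → ℝ,
    (∀ t, (∀ a b : ℤ, Val a b → κ ≤ |2 * a * pt t - b|)) ∧
    (∀ t, ∀ k : ℕ, ∃ p q : ℤ, 0 < q ∧ (q:ℝ) * |q * pt t - p| ≤ 1 / ((k:ℝ) + 1)) ∧
    (∀ (t t' : ℕ → Fin (2 ^ (r - 2))) (n : ℕ), (∀ i < n, t i = t' i) → t n ≠ t' n →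
      ((1 / 2 : ℝ) ^ (r + 1)) ^ n * (1 / 2) ^ r ≤ |pt t - pt t'|) := by
  choose pt hpt using exists_pt r κ Lb child blk hr hchild hblk
  refine ⟨pt, fun t a b hv => ?_, fun t k => ?_, fun t t' n hag hne => ?_⟩
  · obtain ⟨n, hn⟩ := exists_nat_ge ((a:ℝ) * 2 ^ r)
    have hg := pth_good r κ Lb child blk hr hchild hblk t n
    refine hg a b hv ?_ (pt t) (hpt t n).1 (hpt t n).2
    have h1 : n ≤ r * lev r Lb n := by
      unfold lev
      nlinarith
    have h2 : (n:ℝ) ≤ 2 ^ n := by exact_mod_cast (Nat.lt_two_pow_self (n := n)).le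
    calc (a:ℝ) * 2 ^ r ≤ n := hn
      _ ≤ 2 ^ n := h2
      _ ≤ 2 ^ (r * lev r Lb n) := pow_le_pow_right₀ (by norm_num) h1
  · obtain ⟨n, h1, h2⟩ := sch_hit r Lb k
    have hg := pth_good r κ Lb child blk hr hchild hblk t n
    obtain ⟨g0, -⟩ := hchild _ _ hg
    obtain ⟨g1, g2, g3⟩ := g0 (t n)
    obtain ⟨k1, k2, k3, k4⟩ := hblk (sch r Lb n).2 _ _ g1
    have e1 : lev r Lb (n + 1) = lev r Lb n + 1 + Lb (sch r Lb n).2 := by
      unfold lev
      rw [sch, if_pos h2]
      ring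
    have e2 : pth r Lb child blk t (n + 1) =
        blk (sch r Lb n).2 (lev r Lb n + 1) (child (lev r Lb n) (pth r Lb child blk t n) (t n)) := by
      rw [pth, if_pos h2]
    have h3 := hpt t (n + 1)
    rw [e1, e2] at h3
    have h4 := k4 (pt t) h3.1 h3.2
    rw [h1] at h4
    exact h4
  · have hpe : ∀ m ≤ n, pth r Lb child blk t m = pth r Lb child blk t' m := by
      intro m
      induction m with
      | zero => intro _; rfl
      | succ m ih =>
        intro hm
        rw [pth, pth, ih (by omega), hag m (by omega)]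
    have hpn := hpe n le_rfl
    have hg := pth_good r κ Lb child blk hr hchild hblk t n
    have hg' := pth_good r κ Lb child blk hr hchild hblk t' n
    obtain ⟨-, a2, a3⟩ := pth_step r κ Lb child blk hchild hblk t n hg
    obtain ⟨-, b2, b3⟩ := pth_step r κ Lb child blk hchild hblk t' n hg'
    obtain ⟨c1, c2⟩ := hpt t (n + 1)
    obtain ⟨d1, d2⟩ := hpt t' (n + 1)
    have hsep := (hchild _ _ hg).2 (t n) (t' n) hne
    rw [← hpn] at b2 b3
    set s : ℝ := (1 / 2) ^ (r * (lev r Lb n + 1)) with hs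
    have hs1 : ((1 / 2 : ℝ) ^ (r + 1)) ^ n * (1 / 2) ^ r ≤ s := by
      rw [hs, ← pow_mul, ← pow_add]
      apply pow_le_pow_of_le_one (by norm_num) (by norm_num)
      have := sch_le r Lb n
      unfold lev
      nlinarith
    refine hs1.trans ?_
    have hlow : s ≤ |pt t - pt t'| := by
      rcases le_total (child (lev r Lb n) (pth r Lb child blk t n) (t n))
        (child (lev r Lb n) (pth r Lb child blk t n) (t' n)) with h | h
      · rw [abs_of_nonpos (by linarith)] at hsep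
        rw [abs_sub_comm]
        refine le_trans ?_ (le_abs_self _)
        linarith
      · rw [abs_of_nonneg (by linarith)] at hsep
        refine le_trans ?_ (le_abs_self _)
        linarith
    exact hlow

end

/-- For every `s < 1` the set has dimension at least `s`. -/
theorem dim_ge (s : ℝ) (hs0 : 0 < s) (hs1 : s < 1) : ENNReal.ofReal s ≤ dimH (DI2 \ BA) := by
  obtain ⟨r0, hr0⟩ := exists_nat_ge (3 / (1 - s))
  set r : ℕ := r0 + 6 with hr
  have hr6 : 6 ≤ r := by omega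
  obtain ⟨κ, hκ0, hκ, hblk⟩ := block r hr6
  choose Lb hLb using fun k : ℕ => hblk (1 / ((k:ℝ) + 1)) (by positivity)
  choose! blk hblk' using hLb
  have hst := fun N x => step (r := r) hr6 hκ (N := N) (x := x)
  choose! child hchild using hst
  obtain ⟨pt, h1, h2, h3⟩ := exists_cantor r κ Lb child blk hr6 hchild hblk'
  have hsub : Set.range pt ⊆ DI2 \ BA := by
    rintro _ ⟨t, rfl⟩
    refine ⟨di2_of_good hκ0 (h1 t), ?_⟩
    rintro ⟨ε, hε, hbad⟩
    obtain ⟨k, hk⟩ := exists_nat_gt (1 / ε)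
    obtain ⟨p, q, hq, hpq⟩ := h2 t k
    have h4 := hbad p q hq.ne'
    have hqr : (0:ℝ) < q := by exact_mod_cast hq
    rw [abs_of_pos hqr, mul_comm] at h4
    have h5 : 1 / ((k:ℝ) + 1) < ε := by
      rw [div_lt_iff₀ (by positivity)]
      rw [div_lt_iff₀ hε] at hk
      nlinarith
    linarith
  refine le_trans ?_ (dimH_mono hsub)
  have hK : 2 ≤ 2 ^ (r - 2) := by
    calc 2 = 2 ^ 1 := by norm_num
      _ ≤ 2 ^ (r - 2) := Nat.pow_le_pow_right (by norm_num) (by omega)
  apply Pool.Agent.Y754.GD.dimH_range_ge (2 ^ (r - 2)) hK pt ((1 / 2) ^ (r + 1)) ((1 / 2) ^ r) s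
    (by positivity) (by positivity) hs0 ?_ h3
  have e1 : (((2 ^ (r - 2) : ℕ) : ℝ))⁻¹ = (1 / 2 : ℝ) ^ ((r - 2 : ℕ) : ℝ) := by
    rw [Real.rpow_natCast]
    push_cast
    rw [one_div, inv_pow]
  rw [e1, ← Real.rpow_natCast, ← Real.rpow_mul (by norm_num)]
  apply Real.rpow_le_rpow_of_exponent_ge (by norm_num) (by norm_num)
  have h4 : 3 ≤ (r0:ℝ) * (1 - s) := by
    rwa [div_le_iff₀ (by linarith)] at hr0
  have h5 : ((r - 2 : ℕ) : ℝ) = r0 + 4 := by
    have : r - 2 = r0 + 4 := by omega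
    rw [this]; push_cast; ring
  have h6 : ((r + 1 : ℕ) : ℝ) = r0 + 7 := by
    rw [hr]; push_cast; ring
  rw [h5, h6]
  nlinarith

theorem dim_one : dimH (DI2 \ BA) = 1 := by
  apply le_antisymm
  · calc dimH (DI2 \ BA) ≤ dimH (Set.univ : Set ℝ) := dimH_mono (Set.subset_univ _)
      _ = 1 := by rw [Real.dimH_univ]
  · apply le_of_forall_lt
    intro c hc
    have hctop : c ≠ ⊤ := ne_top_of_lt hc
    set s : ℝ := (c.toReal + 1) / 2 with hs
    have hc1 : c.toReal < 1 := by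
      rw [← ENNReal.toReal_one]
      exact (ENNReal.toReal_lt_toReal hctop ENNReal.one_ne_top).2 hc
    have hc0 : 0 ≤ c.toReal := ENNReal.toReal_nonneg
    refine lt_of_lt_of_le ?_ (dim_ge s (by rw [hs]; linarith) (by rw [hs]; linarith))
    rw [ENNReal.lt_ofReal_iff_toReal_lt hctop, hs]
    linarith

end Run7.h952.DI
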